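import Mathlib

/-!
# The covering lemma for generalised stars

A finite set `E` of lists of length `r` either contains a generalised star with branching numbers
`bs` (a forest whose root-to-leaf paths are in `E`, injective on each level), or the lists of `E`
can be coloured by pairs `(j, i)` so that the entries at position `i` of the lists of colour
`(j, i)` with a given initial segment of length `j` are fewer than the number of descendants at
level `i` of a vertex of level `j - 1`.
-/

set_option autoImplicit false

namespace Pool.Agent.Helper42.Unav

open Finset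

/-- Valid nodes of depth `t` in the forest with branching numbers `bs`. -/
def prefs : List ℕ → ℕ → Finset (List ℕ)
  | _, 0 => {[]}
  | [], _ + 1 => ∅
  | b :: bs, t + 1 => (range b ×ˢ prefs bs t).image (fun p => p.1 :: p.2)

lemma prefs_zero (bs : List ℕ) : prefs bs 0 = {[]} := by
  cases bs <;> rfl

lemma mem_prefs_succ {b : ℕ} {bs : List ℕ} {t : ℕ} {l : List ℕ} :
    l ∈ prefs (b :: bs) (t + 1) ↔ ∃ i l', i < b ∧ l' ∈ prefs bs t ∧ l = i :: l' := by
  rw [prefs, mem_image]
  constructor
  · rintro ⟨⟨i, l'⟩, h, rfl⟩
    rw [mem_product, mem_range] at h
    exact ⟨i, l', h.1, h.2, rfl⟩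
  · rintro ⟨i, l', h1, h2, rfl⟩
    exact ⟨(i, l'), by rw [mem_product, mem_range]; exact ⟨h1, h2⟩, rfl⟩

lemma length_of_mem_prefs {bs : List ℕ} {t : ℕ} {l : List ℕ} (h : l ∈ prefs bs t) :
    l.length = t := by
  induction bs generalizing t l with
  | nil =>
    cases t with
    | zero => rw [prefs_zero, mem_singleton] at h; rw [h]; rfl
    | succ t => rw [prefs] at h; simp at h
  | cons b bs ih =>
    cases t with
    | zero => rw [prefs_zero, mem_singleton] at h; rw [h]; rfl
    | succ t =>
      obtain ⟨i, l', _, h2, rfl⟩ := mem_prefs_succ.1 h
      rw [List.length_cons, ih h2]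

lemma card_prefs (bs : List ℕ) (t : ℕ) (ht : t ≤ bs.length) :
    (prefs bs t).card = (bs.take t).prod := by
  induction bs generalizing t with
  | nil =>
    have : t = 0 := by simpa using ht
    subst this
    simp [prefs_zero]
  | cons b bs ih =>
    cases t with
    | zero => simp [prefs_zero]
    | succ t =>
      rw [prefs, card_image_of_injective, card_product, card_range, ih t (by simpa using ht)]
      · simp
      · rintro ⟨i, l⟩ ⟨i', l'⟩ h
        simp only [List.cons.injEq] at h
        exact Prod.ext h.1 h.2

/-- Nodes extend to leaves. -/
lemma exists_leaf {bs : List ℕ} (hpos : ∀ b ∈ bs, 1 ≤ b) {t : ℕ} {l : List ℕ}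
    (h : l ∈ prefs bs t) : ∃ a ∈ prefs bs bs.length, a.take t = l := by
  induction bs generalizing t l with
  | nil =>
    cases t with
    | zero =>
      rw [prefs_zero, mem_singleton] at h
      exact ⟨[], by simp [prefs_zero], by rw [h]; rfl⟩
    | succ t => rw [prefs] at h; simp at h
  | cons b bs ih =>
    have hpos' : ∀ b ∈ bs, 1 ≤ b := fun b hb => hpos b (List.mem_cons_of_mem _ hb)
    cases t with
    | zero =>
      rw [prefs_zero, mem_singleton] at h
      subst h
      obtain ⟨a, ha, _⟩ := ih hpos' (t := 0) (l := []) (by simp [prefs_zero])
      refine ⟨0 :: a, ?_, by simp⟩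
      rw [List.length_cons, mem_prefs_succ]
      exact ⟨0, a, hpos b (by simp), ha, rfl⟩
    | succ t =>
      obtain ⟨i, l', h1, h2, rfl⟩ := mem_prefs_succ.1 h
      obtain ⟨a, ha, hta⟩ := ih hpos' h2
      refine ⟨i :: a, ?_, by simp [hta]⟩
      rw [List.length_cons, mem_prefs_succ]
      exact ⟨i, a, h1, ha, rfl⟩

lemma take_mem_prefs {bs : List ℕ} {t : ℕ} {a : List ℕ} (h : a ∈ prefs bs t) {s : ℕ}
    (hs : s ≤ t) : a.take s ∈ prefs bs s := by
  induction bs generalizing t a s with
  | nil =>
    cases t with
    | zero =>
      have : s = 0 := by omega
      subst this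
      simp [prefs_zero]
    | succ t => rw [prefs] at h; simp at h
  | cons b bs ih =>
    cases s with
    | zero => simp [prefs_zero]
    | succ s =>
      cases t with
      | zero => omega
      | succ t =>
        obtain ⟨i, l', h1, h2, rfl⟩ := mem_prefs_succ.1 h
        rw [List.take_succ_cons, mem_prefs_succ]
        exact ⟨i, _, h1, ih h2 (by omega), rfl⟩

variable {α : Type*}

/-- The list of vertices along the path to a node. -/
def pathOf : (List ℕ → α) → List ℕ → List α
  | _, [] => []
  | φ, i :: a => φ [i] :: pathOf (fun l => φ (i :: l)) a

lemma length_pathOf (φ : List ℕ → α) (a : List ℕ) : (pathOf φ a).length = a.length := by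
  induction a generalizing φ with
  | nil => rfl
  | cons i a ih => rw [pathOf, List.length_cons, List.length_cons, ih]

lemma getElem_pathOf (φ : List ℕ → α) (a : List ℕ) (t : ℕ) (ht : t < a.length) :
    (pathOf φ a)[t]? = some (φ (a.take (t + 1))) := by
  induction a generalizing φ t with
  | nil => simp at ht
  | cons i a ih =>
    rw [pathOf]
    cases t with
    | zero => simp
    | succ t =>
      rw [List.getElem?_cons_succ, ih _ t (by simpa using ht), List.take_succ_cons]

lemma pathOf_congr {φ ψ : List ℕ → α} (h : ∀ i l, φ (i :: l) = ψ (i :: l)) (a : List ℕ) :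
    pathOf φ a = pathOf ψ a := by
  cases a with
  | nil => rfl
  | cons i a =>
    rw [pathOf, pathOf, h]
    congr 2
    funext l
    exact h i l

/-- `φ` is a generalised star with branching numbers `bs` in `E`. -/
def IsForest (bs : List ℕ) (E : Set (List α)) (φ : List ℕ → α) : Prop :=
  (∀ a ∈ prefs bs bs.length, pathOf φ a ∈ E) ∧
    ∀ t, Set.InjOn φ (prefs bs t : Set (List ℕ))

lemma pathOf_mem_level {φ : List ℕ → α} {a : List ℕ} {t : ℕ} (ht : t < a.length) :
    (pathOf φ a)[t]? = some (φ (a.take (t + 1))) := getElem_pathOf φ a t ht

lemma prod_pos_of {bs : List ℕ} (hpos : ∀ b ∈ bs, 1 ≤ b) : 0 < bs.prod := by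
  apply List.prod_pos
  intro b hb
  have := hpos b hb
  omega

variable [DecidableEq α] [Nonempty α]

/-- Adding one more tree to a forest. -/
lemma extend_forest {bs : List ℕ} (hpos : ∀ b ∈ bs, 1 ≤ b) {E : Finset (List α)} {s : ℕ}
    {φ : List ℕ → α} (hφ : IsForest (s :: bs) (E : Set (List α)) φ) {v : α}
    {ψ : List ℕ → α}
    (hψ : ∀ a ∈ prefs bs bs.length, v :: pathOf ψ a ∈ E ∧
      ∀ t w, (v :: pathOf ψ a)[t]? = some w → w ∉ (prefs (s :: bs) (t + 1)).image φ)
    (hψ2 : ∀ t, Set.InjOn ψ (prefs bs t : Set (List ℕ))) :
    ∃ φ', IsForest ((s + 1) :: bs) (E : Set (List α)) φ' := by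
  classical
  let φ' : List ℕ → α := fun l => match l with
    | [] => v
    | i :: l => if i < s then φ (i :: l) else if l = [] then v else ψ l
  have hlt : ∀ i l, i < s → φ' (i :: l) = φ (i :: l) := fun i l hi => by
    simp only [φ', if_pos hi]
  have hs0 : φ' [s] = v := by simp [φ']
  have hs1 : ∀ i l, φ' (s :: i :: l) = ψ (i :: l) := by
    intro i l
    simp [φ']
  refine ⟨φ', ?_, ?_⟩
  · intro a ha
    rw [List.length_cons] at ha
    obtain ⟨i, a', hi, ha', rfl⟩ := mem_prefs_succ.1 ha
    by_cases his : i < s
    · have h1 : pathOf φ' (i :: a') = pathOf φ (i :: a') := by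
        rw [pathOf, pathOf, hlt i [] his]
        congr 2
        funext l
        exact hlt i l his
      rw [h1]
      apply hφ.1
      rw [List.length_cons, mem_prefs_succ]
      exact ⟨i, a', his, ha', rfl⟩
    · have : i = s := by omega
      subst this
      have h1 : pathOf φ' (i :: a') = v :: pathOf ψ a' := by
        rw [pathOf, hs0]
        congr 1
        exact pathOf_congr hs1 a'
      rw [h1]
      exact (hψ a' ha').1
  · intro t
    cases t with
    | zero =>
      intro a ha b hb _
      rw [prefs_zero, coe_singleton, Set.mem_singleton_iff] at ha hb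
      rw [ha, hb]
    | succ t =>
      -- new vertices avoid the old ones
      have hnew : ∀ l ∈ prefs bs t, φ' (s :: l) ∉ (prefs (s :: bs) (t + 1)).image φ := by
        intro l hl
        obtain ⟨a, ha, hta⟩ := exists_leaf hpos hl
        have h2 := (hψ a ha).2 t
        have hlen : t ≤ a.length := by
          have := length_of_mem_prefs hl
          rw [← hta, List.length_take] at this
          omega
        apply h2
        cases t with
        | zero =>
          have : l = [] := by rw [← hta]; simp
          subst this
          simp [hs0]
        | succ t =>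
          rw [List.getElem?_cons_succ, getElem_pathOf ψ a t (by omega), hta]
          cases l with
          | nil =>
            have := length_of_mem_prefs hl
            simp at this
          | cons i l => rw [hs1]
      intro a ha b hb hab
      rw [mem_coe] at ha hb
      obtain ⟨i, a', hi, ha', rfl⟩ := mem_prefs_succ.1 ha
      obtain ⟨i2, b', hi2, hb', rfl⟩ := mem_prefs_succ.1 hb
      by_cases his : i < s
      · by_cases his2 : i2 < s
        · rw [hlt i a' his, hlt i2 b' his2] at hab
          exact hφ.2 (t + 1) (mem_coe.2 (mem_prefs_succ.2 ⟨i, a', his, ha', rfl⟩))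
            (mem_coe.2 (mem_prefs_succ.2 ⟨i2, b', his2, hb', rfl⟩)) hab
        · have : i2 = s := by omega
          subst this
          exfalso
          apply hnew b' hb'
          rw [← hab, hlt i a' his]
          exact mem_image_of_mem _ (mem_prefs_succ.2 ⟨i, a', his, ha', rfl⟩)
      · have : i = s := by omega
        subst this
        by_cases his2 : i2 < i
        · exfalso
          apply hnew a' ha'
          rw [hab, hlt i2 b' his2]
          exact mem_image_of_mem _ (mem_prefs_succ.2 ⟨i2, b', his2, hb', rfl⟩)
        · have : i2 = i := by omega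
          subst this
          congr 1
          cases t with
          | zero =>
            rw [prefs_zero, mem_singleton] at ha' hb'
            rw [ha', hb']
          | succ t =>
            have hla := length_of_mem_prefs ha'
            have hlb := length_of_mem_prefs hb'
            cases a' with
            | nil => simp at hla
            | cons x a' =>
              cases b' with
              | nil => simp at hlb
              | cons y b' =>
                rw [hs1, hs1] at hab
                exact hψ2 (t + 1) (mem_coe.2 ha') (mem_coe.2 hb') hab

/-- The covering lemma. -/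
theorem cover (bs : List ℕ) (hpos : ∀ b ∈ bs, 1 ≤ b) (E : Finset (List α))
    (hE : ∀ l ∈ E, l.length = bs.length) :
    (∃ φ, IsForest bs (E : Set (List α)) φ) ∨ ∃ c : List α → ℕ × ℕ,
      (∀ l ∈ E, (c l).1 ≤ (c l).2 ∧ (c l).2 < bs.length) ∧
      ∀ j i p, j ≤ i → i < bs.length →
        ((E.filter (fun l => c l = (j, i) ∧ l.take j = p)).image (fun l => l[i]?)).card <
          ((bs.take (i + 1)).drop j).prod := by
  classical
  induction bs generalizing E with
  | nil =>
    by_cases h : [] ∈ E
    · left
      refine ⟨fun _ => Classical.arbitrary α, ?_, ?_⟩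
      · intro a ha
        rw [List.length_nil, prefs_zero, mem_singleton] at ha
        rw [ha]
        exact h
      · intro t a ha b hb _
        cases t with
        | zero =>
          rw [prefs_zero, coe_singleton, Set.mem_singleton_iff] at ha hb
          rw [ha, hb]
        | succ t => rw [prefs] at ha; simp at ha
    · right
      refine ⟨fun _ => (0, 0), fun l hl => ?_, fun j i p _ hi => ?_⟩
      · have := hE l hl
        rw [List.length_nil, List.length_eq_zero_iff] at this
        exact absurd (this ▸ hl) h
      · simp at hi
  | cons b bs ih =>
    have hpos' : ∀ b ∈ bs, 1 ≤ b := fun b hb => hpos b (List.mem_cons_of_mem _ hb)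
    by_cases hb : ∃ φ, IsForest (b :: bs) (E : Set (List α)) φ
    · exact Or.inl hb
    right
    -- maximal number of disjoint trees
    obtain ⟨s, hsb, ⟨φ, hφ⟩, hs⟩ : ∃ s, s < b ∧ (∃ φ, IsForest (s :: bs) (E : Set (List α)) φ) ∧
        ¬ ∃ φ, IsForest ((s + 1) :: bs) (E : Set (List α)) φ := by
      by_contra hcon
      push Not at hcon
      apply hb
      have : ∀ s, s ≤ b → ∃ φ, IsForest (s :: bs) (E : Set (List α)) φ := by
        intro s
        induction s with
        | zero =>
          intro _
          refine ⟨fun _ => Classical.arbitrary α, ?_, ?_⟩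
          · intro a ha
            rw [List.length_cons] at ha
            obtain ⟨i, _, hi, _⟩ := mem_prefs_succ.1 ha
            omega
          · intro t a ha b hb _
            cases t with
            | zero =>
              rw [prefs_zero, coe_singleton, Set.mem_singleton_iff] at ha hb
              rw [ha, hb]
            | succ t =>
              obtain ⟨i, _, hi, _⟩ := mem_prefs_succ.1 (mem_coe.1 ha)
              omega
        | succ s ihs =>
          intro hsb
          obtain ⟨φ, hφ⟩ := ihs (by omega)
          exact hcon s (by omega) ⟨φ, hφ⟩
      exact this b le_rfl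
    let U : ℕ → Finset α := fun t => (prefs (s :: bs) (t + 1)).image φ
    let E0 : Finset (List α) := E.filter (fun l => ∀ t w, l[t]? = some w → w ∉ U t)
    let Ev : α → Finset (List α) := fun v => (E0.filter (fun l => l.head? = some v)).image List.tail
    have hEv : ∀ v l, l ∈ Ev v ↔ v :: l ∈ E0 := by
      intro v l
      constructor
      · intro h
        rw [mem_image] at h
        obtain ⟨l0, h1, h2⟩ := h
        rw [mem_filter] at h1
        cases l0 with
        | nil => simp at h1
        | cons w l1 =>
          have h3 : w = v := by simpa using h1.2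
          have h4 : l1 = l := by simpa using h2
          rw [← h3, ← h4]
          exact h1.1
      · intro h
        rw [mem_image]
        exact ⟨v :: l, by rw [mem_filter]; exact ⟨h, rfl⟩, rfl⟩
    have hcol : ∀ v, ∃ c : List α → ℕ × ℕ,
        (∀ l ∈ Ev v, (c l).1 ≤ (c l).2 ∧ (c l).2 < bs.length) ∧
        ∀ j i p, j ≤ i → i < bs.length →
          (((Ev v).filter (fun l => c l = (j, i) ∧ l.take j = p)).image (fun l => l[i]?)).card <
            ((bs.take (i + 1)).drop j).prod := by
      intro v
      have hlen : ∀ l ∈ Ev v, l.length = bs.length := by
        intro l hl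
        have := hE _ (mem_filter.1 ((hEv v l).1 hl)).1
        simpa using this
      rcases ih hpos' (Ev v) hlen with ⟨ψ, hψ⟩ | h
      · exfalso
        apply hs
        refine extend_forest hpos' hφ (v := v) (ψ := ψ) ?_ hψ.2
        intro a ha
        have h1 := (hEv v _).1 (mem_coe.1 (hψ.1 a ha))
        rw [mem_filter] at h1
        exact h1
      · exact h
    choose cv hcv1 hcv2 using hcol
    -- the colouring
    let c : List α → ℕ × ℕ := fun l =>
      if h : ∃ t w, l[t]? = some w ∧ w ∈ U t then (0, h.choose)
      else match l with
        | [] => (0, 0)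
        | v :: l' => ((cv v l').1 + 1, (cv v l').2 + 1)
    have hc1 : ∀ l, (h : ∃ t w, l[t]? = some w ∧ w ∈ U t) → c l = (0, h.choose) := by
      intro l h
      simp only [c, dif_pos h]
    have hc2 : ∀ v l', (¬ ∃ t w, (v :: l')[t]? = some w ∧ w ∈ U t) →
        c (v :: l') = ((cv v l').1 + 1, (cv v l').2 + 1) := by
      intro v l' h
      simp only [c, dif_neg h]
    have hE0 : ∀ l ∈ E, (¬ ∃ t w, l[t]? = some w ∧ w ∈ U t) → l ∈ E0 := by
      intro l hl h
      rw [mem_filter]
      push Not at h
      exact ⟨hl, h⟩
    refine ⟨c, ?_, ?_⟩
    · intro l hl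
      have hlen := hE l hl
      by_cases h : ∃ t w, l[t]? = some w ∧ w ∈ U t
      · rw [hc1 l h]
        obtain ⟨w, hw, _⟩ := h.choose_spec
        have := (List.getElem?_eq_some_iff.1 hw).1
        refine ⟨Nat.zero_le _, ?_⟩
        show h.choose < _
        omega
      · cases l with
        | nil => simp at hlen
        | cons v l' =>
          rw [hc2 v l' h]
          have h1 := hcv1 v l' ((hEv v l').2 (hE0 _ hl h))
          rw [List.length_cons]
          exact ⟨by dsimp only; omega, by dsimp only; omega⟩
    · intro j i p hji hi
      rw [List.length_cons] at hi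
      cases j with
      | zero =>
        -- entries lie in U i
        have hsub : (E.filter (fun l => c l = (0, i) ∧ l.take 0 = p)).image (fun l => l[i]?) ⊆
            (U i).image some := by
          intro o ho
          rw [mem_image] at ho
          obtain ⟨l, hl, rfl⟩ := ho
          rw [mem_filter] at hl
          obtain ⟨hlE, hcl, _⟩ := hl
          by_cases h : ∃ t w, l[t]? = some w ∧ w ∈ U t
          · rw [hc1 l h, Prod.mk.injEq] at hcl
            obtain ⟨w, hw, hwU⟩ := h.choose_spec
            rw [hcl.2] at hw hwU
            rw [hw, mem_image]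
            exact ⟨w, hwU, rfl⟩
          · have hlen := hE l hlE
            cases l with
            | nil => simp at hlen
            | cons v l' =>
              rw [hc2 v l' h, Prod.mk.injEq] at hcl
              omega
        calc _ ≤ ((U i).image some).card := card_le_card hsub
          _ ≤ (U i).card := card_image_le
          _ ≤ (prefs (s :: bs) (i + 1)).card := card_image_le
          _ = s * (bs.take i).prod := by
            rw [card_prefs _ _ (by rw [List.length_cons]; omega)]
            simp
          _ < b * (bs.take i).prod := by
            apply Nat.mul_lt_mul_of_pos_right hsb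
            exact prod_pos_of fun x hx => hpos' x (List.mem_of_mem_take hx)
          _ = _ := by simp
      | succ j =>
        obtain ⟨i, rfl⟩ : ∃ i', i = i' + 1 := ⟨i - 1, by omega⟩
        cases p with
        | nil =>
          have hemp : E.filter (fun l => c l = (j + 1, i + 1) ∧ l.take (j + 1) = []) = ∅ := by
            rw [filter_eq_empty_iff]
            rintro l hl ⟨_, h⟩
            have hlen := hE l hl
            cases l with
            | nil => simp at hlen
            | cons v l' => simp at h
          rw [hemp, image_empty, card_empty]
          exact prod_pos_of fun x hx =>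
            hpos x (List.mem_of_mem_take (List.mem_of_mem_drop hx))
        | cons v p =>
          have hsub : (E.filter (fun l => c l = (j + 1, i + 1) ∧ l.take (j + 1) = v :: p)).image
              (fun l => l[i + 1]?) ⊆
              ((Ev v).filter (fun l => cv v l = (j, i) ∧ l.take j = p)).image
                (fun l => l[i]?) := by
            intro o ho
            rw [mem_image] at ho
            obtain ⟨l, hl, rfl⟩ := ho
            rw [mem_filter] at hl
            obtain ⟨hlE, hcl, htake⟩ := hl
            cases l with
            | nil => simp at htake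
            | cons w l' =>
              rw [List.take_succ_cons, List.cons.injEq] at htake
              obtain ⟨rfl, htake⟩ := htake
              have h : ¬ ∃ t u, (w :: l')[t]? = some u ∧ u ∈ U t := by
                intro h
                rw [hc1 _ h, Prod.mk.injEq] at hcl
                omega
              rw [hc2 w l' h, Prod.mk.injEq] at hcl
              rw [mem_image]
              refine ⟨l', ?_, by rw [List.getElem?_cons_succ]⟩
              rw [mem_filter]
              refine ⟨(hEv w l').2 (hE0 _ hlE h), ?_, htake⟩
              exact Prod.ext (by dsimp only; omega) (by dsimp only; omega)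
          calc _ ≤ _ := card_le_card hsub
            _ < _ := hcv2 v j i p (by omega) (by omega)
            _ = _ := by simp

end Pool.Agent.Helper42.Unav
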