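import Pool.Agent.Helper42.Unav.Order

/-!
# Entropy of a finite set of tuples

For a finite set `H` of functions `ι → α` the (unnormalised) entropy deficiency is a supermodular
set function; the ordering theorem then yields an order of the coordinates along which the fibres
are large.
-/

set_option autoImplicit false

namespace Pool.Agent.Helper42.Unav

open Finset

section Count

variable {ι α : Type*} [DecidableEq ι] [DecidableEq α]

/-- Tuples of `H` agreeing with `x` on `I`. -/
def cls (H : Finset (ι → α)) (I : Finset ι) (x : ι → α) : Finset (ι → α) :=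
  H.filter (fun y => ∀ t ∈ I, y t = x t)

lemma mem_cls {H : Finset (ι → α)} {I : Finset ι} {x y : ι → α} :
    y ∈ cls H I x ↔ y ∈ H ∧ ∀ t ∈ I, y t = x t := by
  unfold cls; rw [mem_filter]

lemma self_mem_cls {H : Finset (ι → α)} {I : Finset ι} {x : ι → α} (hx : x ∈ H) :
    x ∈ cls H I x := mem_cls.2 ⟨hx, fun _ _ => rfl⟩

lemma cls_eq_of {H : Finset (ι → α)} {I : Finset ι} {x y : ι → α} (h : ∀ t ∈ I, y t = x t) :
    cls H I y = cls H I x := by
  ext z
  rw [mem_cls, mem_cls]
  constructor
  · rintro ⟨h1, h2⟩; exact ⟨h1, fun t ht => (h2 t ht).trans (h t ht)⟩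
  · rintro ⟨h1, h2⟩; exact ⟨h1, fun t ht => (h2 t ht).trans (h t ht).symm⟩

lemma mem_cls_symm {H : Finset (ι → α)} {I : Finset ι} {x y : ι → α} (hx : x ∈ H)
    (h : y ∈ cls H I x) : x ∈ cls H I y := by
  rw [mem_cls] at h ⊢
  exact ⟨hx, fun t ht => (h.2 t ht).symm⟩

/-- Number of tuples of `H` agreeing with `x` on `I`. -/
def cn (H : Finset (ι → α)) (I : Finset ι) (x : ι → α) : ℕ := (cls H I x).card

lemma cn_pos {H : Finset (ι → α)} {I : Finset ι} {x : ι → α} (hx : x ∈ H) : 0 < cn H I x :=
  card_pos.2 ⟨x, self_mem_cls hx⟩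

/-- Values of coordinate `u` in the class of `x`. -/
def vals (H : Finset (ι → α)) (I : Finset ι) (u : ι) (x : ι → α) : Finset α :=
  (cls H I x).image (fun y => y u)

lemma sum_inv_fiber {β γ : Type*} [DecidableEq γ] (C : Finset β) (f : β → γ) :
    ∑ x ∈ C, (1 : ℝ) / ((C.filter (fun y => f y = f x)).card : ℝ) = ((C.image f).card : ℝ) := by
  classical
  rw [← sum_fiberwise_of_maps_to (s := C) (t := C.image f) (g := f)
    (fun x hx => mem_image_of_mem f hx)]
  have h : ∀ b ∈ C.image f, ∑ x ∈ C with f x = b,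
      (1 : ℝ) / ((C.filter (fun y => f y = f x)).card : ℝ) = 1 := by
    intro b hb
    rw [mem_image] at hb
    obtain ⟨x0, hx0, rfl⟩ := hb
    have h1 : ∀ x ∈ C.filter (fun y => f y = f x0),
        (1 : ℝ) / ((C.filter (fun y => f y = f x)).card : ℝ) =
          1 / ((C.filter (fun y => f y = f x0)).card : ℝ) := by
      intro x hx
      rw [(mem_filter.1 hx).2]
    rw [sum_congr rfl h1, sum_const, nsmul_eq_mul]
    have h2' : 0 < (C.filter (fun y => f y = f x0)).card :=
      card_pos.2 ⟨x0, mem_filter.2 ⟨hx0, rfl⟩⟩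
    have h2 : (0 : ℝ) < ((C.filter (fun y => f y = f x0)).card : ℝ) := by
      exact_mod_cast h2'
    field_simp
  rw [sum_congr rfl h]
  simp

/-- Counting form of the conditional entropy bound. -/
lemma sum_ratio_le (H : Finset (ι → α)) (I : Finset ι) (u : ι) (M : ℕ)
    (hM : ∀ x ∈ H, (vals H I u x).card ≤ M) :
    ∑ x ∈ H, (cn H I x : ℝ) / (cn H (insert u I) x : ℝ) ≤ M * H.card := by
  classical
  have h1 : ∀ x ∈ H, (cn H I x : ℝ) / (cn H (insert u I) x : ℝ) =
      ∑ y ∈ H, if y ∈ cls H I x then (1 : ℝ) / (cn H (insert u I) x : ℝ) else 0 := by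
    intro x _
    rw [← sum_filter, sum_const, nsmul_eq_mul]
    have : H.filter (fun y => y ∈ cls H I x) = cls H I x := by
      ext y
      rw [mem_filter]
      exact ⟨fun h => h.2, fun h => ⟨(mem_cls.1 h).1, h⟩⟩
    rw [this]
    unfold cn
    ring
  rw [sum_congr rfl h1, sum_comm]
  have h2 : ∀ y ∈ H, ∑ x ∈ H, (if y ∈ cls H I x then (1 : ℝ) / (cn H (insert u I) x : ℝ) else 0) ≤
      M := by
    intro y hy
    have h3 : ∑ x ∈ H, (if y ∈ cls H I x then (1 : ℝ) / (cn H (insert u I) x : ℝ) else 0) =
        ∑ x ∈ cls H I y, (1 : ℝ) / (((cls H I y).filter (fun z => z u = x u)).card : ℝ) := by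
      rw [← sum_filter]
      have h4 : H.filter (fun x => y ∈ cls H I x) = cls H I y := by
        ext x
        rw [mem_filter]
        constructor
        · rintro ⟨hx, h⟩; exact mem_cls_symm hx h
        · intro h; exact ⟨(mem_cls.1 h).1, mem_cls_symm hy h⟩
      rw [h4]
      refine sum_congr rfl fun x hx => ?_
      have h5 : cls H (insert u I) x = (cls H I y).filter (fun z => z u = x u) := by
        ext z
        rw [mem_cls, mem_filter, mem_cls]
        have hxy := (mem_cls.1 hx).2
        constructor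
        · rintro ⟨hz, h⟩
          exact ⟨⟨hz, fun t ht => (h t (mem_insert_of_mem ht)).trans (hxy t ht)⟩,
            h u (mem_insert_self _ _)⟩
        · rintro ⟨⟨hz, h⟩, hu⟩
          refine ⟨hz, fun t ht => ?_⟩
          rcases mem_insert.1 ht with rfl | ht
          · exact hu
          · exact (h t ht).trans (hxy t ht).symm
      unfold cn
      rw [h5]
    rw [h3, sum_inv_fiber]
    exact_mod_cast hM y hy
  calc ∑ y ∈ H, ∑ x ∈ H, (if y ∈ cls H I x then (1 : ℝ) / (cn H (insert u I) x : ℝ) else 0)
      ≤ ∑ y ∈ H, (M : ℝ) := sum_le_sum h2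
    _ = M * H.card := by rw [sum_const, nsmul_eq_mul]; ring

/-- The conditional entropy bound. -/
lemma log_fiber (H : Finset (ι → α)) (I : Finset ι) (u : ι) (M : ℕ) (hM0 : 0 < M)
    (hM : ∀ x ∈ H, (vals H I u x).card ≤ M) :
    ∑ x ∈ H, Real.log (cn H I x) - ∑ x ∈ H, Real.log (cn H (insert u I) x) ≤
      H.card * Real.log M := by
  have hMr : (0 : ℝ) < M := by exact_mod_cast hM0
  have h1 : ∀ x ∈ H, Real.log (cn H I x) - Real.log (cn H (insert u I) x) - Real.log M ≤
      (cn H I x : ℝ) / (cn H (insert u I) x : ℝ) / M - 1 := by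
    intro x hx
    have p1 : (0 : ℝ) < cn H I x := by exact_mod_cast cn_pos hx
    have p2 : (0 : ℝ) < cn H (insert u I) x := by exact_mod_cast cn_pos hx
    rw [← Real.log_div p1.ne' p2.ne', ← Real.log_div (div_pos p1 p2).ne' hMr.ne']
    exact Real.log_le_sub_one_of_pos (div_pos (div_pos p1 p2) hMr)
  have h2 := sum_le_sum h1
  rw [sum_sub_distrib, sum_sub_distrib, sum_sub_distrib, sum_const, sum_const, ← sum_div,
    nsmul_eq_mul, nsmul_eq_mul, mul_one] at h2
  have h3 := sum_ratio_le H I u M hM
  have h4 : (∑ x ∈ H, (cn H I x : ℝ) / (cn H (insert u I) x : ℝ)) / M ≤ H.card := by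
    rw [div_le_iff₀ hMr]
    linarith
  linarith

/-- Counting form of submodularity. -/
lemma sum_four_le (H : Finset (ι → α)) (I : Finset ι) (u w : ι) :
    ∑ x ∈ H, (cn H (insert u I) x : ℝ) * (cn H (insert w I) x : ℝ) /
      ((cn H (insert u (insert w I)) x : ℝ) * (cn H I x : ℝ)) ≤ H.card := by
  classical
  have h1 : ∀ x ∈ H, (cn H (insert u I) x : ℝ) * (cn H (insert w I) x : ℝ) /
      ((cn H (insert u (insert w I)) x : ℝ) * (cn H I x : ℝ)) =
      ∑ y ∈ H, ∑ z ∈ H, if y ∈ cls H (insert u I) x ∧ z ∈ cls H (insert w I) x then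
        (1 : ℝ) / ((cn H (insert u (insert w I)) x : ℝ) * (cn H I x : ℝ)) else 0 := by
    intro x _
    have e : ∀ J : Finset ι, (cn H J x : ℝ) = ∑ y ∈ H, if y ∈ cls H J x then (1 : ℝ) else 0 := by
      intro J
      rw [← sum_filter]
      have : H.filter (fun y => y ∈ cls H J x) = cls H J x := by
        ext y
        rw [mem_filter]
        exact ⟨fun h => h.2, fun h => ⟨(mem_cls.1 h).1, h⟩⟩
      rw [this]
      simp [cn]
    rw [e (insert u I), e (insert w I), sum_mul_sum, sum_div]
    refine sum_congr rfl fun y _ => ?_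
    rw [sum_div]
    refine sum_congr rfl fun z _ => ?_
    by_cases hy : y ∈ cls H (insert u I) x <;> by_cases hz : z ∈ cls H (insert w I) x <;>
      simp [hy, hz]
  rw [sum_congr rfl h1, sum_comm]
  have h2 : ∀ y ∈ H, ∑ x ∈ H, ∑ z ∈ H,
      (if y ∈ cls H (insert u I) x ∧ z ∈ cls H (insert w I) x then
        (1 : ℝ) / ((cn H (insert u (insert w I)) x : ℝ) * (cn H I x : ℝ)) else 0) ≤ 1 := by
    intro y hy
    rw [sum_comm]
    have hNy : (0 : ℝ) < cn H I y := by exact_mod_cast cn_pos hy
    have h3 : ∀ z ∈ H, ∑ x ∈ H,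
      (if y ∈ cls H (insert u I) x ∧ z ∈ cls H (insert w I) x then
        (1 : ℝ) / ((cn H (insert u (insert w I)) x : ℝ) * (cn H I x : ℝ)) else 0) ≤
        if z ∈ cls H I y then 1 / (cn H I y : ℝ) else 0 := by
      intro z hz
      rw [← sum_filter]
      set A := H.filter (fun x => y ∈ cls H (insert u I) x ∧ z ∈ cls H (insert w I) x) with hA
      rcases A.eq_empty_or_nonempty with hemp | hnon
      · rw [hemp, sum_empty]
        split_ifs
        · positivity
        · exact le_rfl
      · -- all elements of A form one class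
        have hx : ∀ x ∈ A, cls H (insert u (insert w I)) x = A := by
          intro x hx
          rw [hA, mem_filter] at hx
          obtain ⟨hxH, hxy, hxz⟩ := hx
          have hxy' := (mem_cls.1 hxy).2
          have hxz' := (mem_cls.1 hxz).2
          ext a
          rw [hA, mem_filter, mem_cls, mem_cls, mem_cls]
          constructor
          · rintro ⟨haH, ha⟩
            refine ⟨haH, ⟨hy, fun t ht => ?_⟩, ⟨hz, fun t ht => ?_⟩⟩
            · rw [hxy' t ht]
              refine (ha t ?_).symm
              rcases mem_insert.1 ht with rfl | ht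
              · exact mem_insert_self _ _
              · exact mem_insert_of_mem (mem_insert_of_mem ht)
            · rw [hxz' t ht]
              exact (ha t (mem_insert_of_mem ht)).symm
          · rintro ⟨haH, ⟨_, h4⟩, ⟨_, h5⟩⟩
            refine ⟨haH, fun t ht => ?_⟩
            rcases mem_insert.1 ht with rfl | ht
            · rw [← h4 t (mem_insert_self _ _), hxy' t (mem_insert_self _ _)]
            · rw [← h5 t ht, hxz' t ht]
        have hxI : ∀ x ∈ A, cn H I x = cn H I y := by
          intro x hx'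
          rw [hA, mem_filter] at hx'
          unfold cn
          rw [cls_eq_of (x := y) (y := x)]
          intro t ht
          exact ((mem_cls.1 hx'.2.1).2 t (mem_insert_of_mem ht)).symm
        have hzy : z ∈ cls H I y := by
          obtain ⟨x, hx'⟩ := hnon
          rw [hA, mem_filter] at hx'
          rw [mem_cls]
          refine ⟨hz, fun t ht => ?_⟩
          rw [(mem_cls.1 hx'.2.2).2 t (mem_insert_of_mem ht),
            (mem_cls.1 hx'.2.1).2 t (mem_insert_of_mem ht)]
        rw [if_pos hzy]
        have h6 : ∀ x ∈ A, (1 : ℝ) / ((cn H (insert u (insert w I)) x : ℝ) * (cn H I x : ℝ)) =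
            1 / ((A.card : ℝ) * (cn H I y : ℝ)) := by
          intro x hx'
          rw [hxI x hx']
          unfold cn
          rw [hx x hx']
        rw [sum_congr rfl h6, sum_const, nsmul_eq_mul]
        have hAc : (0 : ℝ) < A.card := by exact_mod_cast card_pos.2 hnon
        apply le_of_eq
        field_simp
    refine (sum_le_sum h3).trans ?_
    rw [← sum_filter]
    have : H.filter (fun z => z ∈ cls H I y) = cls H I y := by
      ext a
      rw [mem_filter]
      exact ⟨fun h => h.2, fun h => ⟨(mem_cls.1 h).1, h⟩⟩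
    rw [this, sum_const, nsmul_eq_mul]
    unfold cn at hNy ⊢
    rw [mul_one_div, div_self hNy.ne']
  calc _ ≤ ∑ y ∈ H, (1 : ℝ) := sum_le_sum h2
    _ = H.card := by simp

/-- Submodularity of entropy. -/
lemma log_submod (H : Finset (ι → α)) (I : Finset ι) (u w : ι) :
    ∑ x ∈ H, Real.log (cn H (insert u I) x) + ∑ x ∈ H, Real.log (cn H (insert w I) x) ≤
      ∑ x ∈ H, Real.log (cn H (insert u (insert w I)) x) + ∑ x ∈ H, Real.log (cn H I x) := by
  have h1 : ∀ x ∈ H, Real.log (cn H (insert u I) x) + Real.log (cn H (insert w I) x) -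
      (Real.log (cn H (insert u (insert w I)) x) + Real.log (cn H I x)) ≤
      (cn H (insert u I) x : ℝ) * (cn H (insert w I) x : ℝ) /
      ((cn H (insert u (insert w I)) x : ℝ) * (cn H I x : ℝ)) - 1 := by
    intro x hx
    have p1 : (0 : ℝ) < cn H (insert u I) x := by exact_mod_cast cn_pos hx
    have p2 : (0 : ℝ) < cn H (insert w I) x := by exact_mod_cast cn_pos hx
    have p3 : (0 : ℝ) < cn H (insert u (insert w I)) x := by exact_mod_cast cn_pos hx
    have p4 : (0 : ℝ) < cn H I x := by exact_mod_cast cn_pos hx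
    rw [← Real.log_mul p1.ne' p2.ne', ← Real.log_mul p3.ne' p4.ne',
      ← Real.log_div (mul_pos p1 p2).ne' (mul_pos p3 p4).ne']
    exact Real.log_le_sub_one_of_pos (div_pos (mul_pos p1 p2) (mul_pos p3 p4))
  have h2 := sum_le_sum h1
  have h3 := sum_four_le H I u w
  rw [sum_sub_distrib, sum_sub_distrib, sum_add_distrib, sum_add_distrib, sum_const,
    nsmul_eq_mul, mul_one] at h2
  linarith

end Count

section Main

variable {ι α : Type*} [Fintype ι] [DecidableEq ι] [Fintype α] [DecidableEq α]

/-- Branching numbers of the generalised star: `k` at the first and last level, `d` between. -/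
def br (q k d t : ℕ) : ℕ := if t = 0 ∨ t = q then k else d

/-- Entropy deficiency. -/
noncomputable def Fd (H : Finset (ι → α)) (I : Finset ι) : ℝ :=
  ∑ x ∈ H, Real.log (cn H I x) +
    H.card * (I.card * Real.log (Fintype.card α) - Real.log H.card)

omit [Fintype ι] in
lemma Fd_empty (H : Finset (ι → α)) : Fd H ∅ = 0 := by
  unfold Fd
  have : ∀ x ∈ H, Real.log (cn H ∅ x) = Real.log H.card := by
    intro x _
    have : cls H ∅ x = H := by
      ext y; rw [mem_cls]; simp
    unfold cn
    rw [this]
  rw [sum_congr rfl this]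
  simp

lemma Fd_univ (H : Finset (ι → α)) {q : ℕ} (hι : Fintype.card ι = q + 1) :
    Fd H univ = H.card * ((q + 1) * Real.log (Fintype.card α) - Real.log H.card) := by
  unfold Fd
  have : ∀ x ∈ H, Real.log (cn H univ x) = 0 := by
    intro x hx
    have : cls H univ x = {x} := by
      ext y
      rw [mem_cls, mem_singleton]
      constructor
      · rintro ⟨_, h⟩
        funext t
        exact h t (mem_univ t)
      · rintro rfl; exact ⟨hx, fun _ _ => rfl⟩
    unfold cn
    rw [this]
    simp
  rw [sum_congr rfl this, card_univ, hι]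
  simp

/-- Conditional bound: if the fibres over `I` have at most `M` values of coordinate `u`, the
marginal is large. -/
lemma Fd_mg (H : Finset (ι → α)) (I : Finset ι) (u : ι) (hu : u ∉ I) (M : ℕ) (hM0 : 0 < M)
    (hM : ∀ x ∈ H, (vals H I u x).card ≤ M) :
    H.card * (Real.log (Fintype.card α) - Real.log M) ≤ mg (Fd H) u I := by
  have := log_fiber H I u M hM0 hM
  unfold mg Fd
  rw [card_insert_of_notMem hu]
  push_cast
  nlinarith

omit [Fintype ι] in
lemma Fd_mono (H : Finset (ι → α)) (I : Finset ι) (u : ι) : Fd H I ≤ Fd H (insert u I) := by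
  by_cases hu : u ∈ I
  · rw [insert_eq_of_mem hu]
  · rcases H.eq_empty_or_nonempty with rfl | ⟨x0, hx0⟩
    · simp [Fd]
    · have hα : 0 < Fintype.card α := Fintype.card_pos_iff.2 ⟨x0 u⟩
      have := log_fiber H I u (Fintype.card α) hα (fun x _ => card_le_univ _)
      unfold Fd
      rw [card_insert_of_notMem hu]
      push_cast
      nlinarith

lemma Fd_sup (H : Finset (ι → α)) (I : Finset ι) (u w : ι) (hu : u ∉ I) (hw : w ∉ I)
    (huw : u ≠ w) :
    Fd H (insert u I) + Fd H (insert w I) ≤ Fd H (insert u (insert w I)) + Fd H I := by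
  have := log_submod H I u w
  unfold Fd
  rw [card_insert_of_notMem hu, card_insert_of_notMem hw, card_insert_of_notMem (by
    rw [mem_insert]; push Not; exact ⟨huw, hu⟩), card_insert_of_notMem hw]
  push_cast
  nlinarith

/-- Every large set of tuples has an order of the coordinates along which all fibres are large. -/
theorem exists_order_fiber {q : ℕ} (hq : 1 ≤ q) (hι : Fintype.card ι = q + 1)
    (H : Finset (ι → α)) (hne : H.Nonempty) {k d : ℕ} (hk : 1 ≤ k) (hd : 1 ≤ d)
    (h1 : k * Fintype.card α ^ q ≤ H.card) (h2 : d ^ q * H.card ≤ Fintype.card α ^ (q + 1))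
    (h3 : (k ^ 2 * d ^ (q - 1)) ^ (q + 1) ≤ H.card) (hlt : H.card < Fintype.card α ^ (q + 1)) :
    ∃ (x : ℕ → ι) (P : ℕ → Finset ι), Ord q x P ∧ ∀ j i, j ≤ i → i ≤ q → ∀ M' : ℕ,
      (∀ y ∈ H, (vals H (P j) (x i) y).card ≤ M') → ∏ t ∈ Icc j i, br q k d t ≤ M' := by
  obtain ⟨y0, hy0⟩ := hne
  have hH0 : 0 < H.card := card_pos.2 ⟨y0, hy0⟩
  have hHr : (0 : ℝ) < H.card := by exact_mod_cast hH0
  have hι0 : 0 < Fintype.card ι := by omega
  obtain ⟨i0⟩ := Fintype.card_pos_iff.1 hι0
  have hα : 0 < Fintype.card α := Fintype.card_pos_iff.2 ⟨y0 i0⟩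
  set n := Fintype.card α with hn
  have hnr : (0 : ℝ) < n := by exact_mod_cast hα
  set L := Real.log n with hL
  set lh := Real.log H.card with hlh
  have hkr : (1 : ℝ) ≤ k := by exact_mod_cast hk
  have hdr : (1 : ℝ) ≤ d := by exact_mod_cast hd
  have hqr : (1 : ℝ) ≤ q := by exact_mod_cast hq
  set lk := Real.log k with hlk
  set ld := Real.log d with hld
  have hlk0 : 0 ≤ lk := Real.log_nonneg hkr
  have hld0 : 0 ≤ ld := Real.log_nonneg hdr
  -- logarithmic forms of the hypotheses
  have l1 : lk + q * L ≤ lh := by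
    have : ((k * n ^ q : ℕ) : ℝ) ≤ H.card := by exact_mod_cast h1
    have h := Real.log_le_log (by positivity) this
    push_cast at h
    rwa [Real.log_mul (by positivity) (by positivity), Real.log_pow] at h
  have l2 : q * ld + lh ≤ (q + 1) * L := by
    have : ((d ^ q * H.card : ℕ) : ℝ) ≤ (n ^ (q + 1) : ℕ) := by exact_mod_cast h2
    have h := Real.log_le_log (by positivity) this
    push_cast at h
    rw [Real.log_mul (by positivity) (by positivity), Real.log_pow, Real.log_pow] at h
    push_cast at h
    exact h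
  have l3 : (q + 1) * (2 * lk + (q - 1) * ld) ≤ lh := by
    have : (((k ^ 2 * d ^ (q - 1)) ^ (q + 1) : ℕ) : ℝ) ≤ H.card := by exact_mod_cast h3
    have h := Real.log_le_log (by positivity) this
    push_cast at h
    rw [Real.log_pow, Real.log_mul (by positivity) (by positivity), Real.log_pow,
      Real.log_pow, Nat.cast_sub hq] at h
    push_cast at h
    exact h
  have l4 : lh < (q + 1) * L := by
    have : (H.card : ℝ) < (n ^ (q + 1) : ℕ) := by exact_mod_cast hlt
    have h := Real.log_lt_log hHr this
    push_cast at h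
    rw [Real.log_pow] at h
    push_cast at h
    exact h
  set Λ := (q + 1) * L - lh with hΛ
  have hΛ0 : 0 < Λ := by linarith
  have hu : Fd H univ = H.card * Λ := Fd_univ H hι
  -- the scaled function
  set c : ℝ := q / (H.card * Λ) with hc
  have hc0 : 0 < c := by positivity
  have hG : SupFun (fun I => c * Fd H I) q := by
    refine ⟨?_, ?_, ?_, ?_, hι⟩
    · simp [Fd_empty]
    · intro S u
      exact mul_le_mul_of_nonneg_left (Fd_mono H S u) hc0.le
    · intro S u w hu hw huw
      have := mul_le_mul_of_nonneg_left (Fd_sup H S u w hu hw huw) hc0.le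
      simp only [mul_add] at this
      exact this
    · rw [hu, hc]
      apply le_of_eq
      field_simp
  -- the parameter
  obtain ⟨η, hη0, hη1, hη2, hη3⟩ : ∃ η : ℝ, 0 ≤ η ∧ (q + 1) * η ≤ 1 ∧ Λ / q * η ≤ L - Λ ∧
      2 * lk + (q - 1) * ld ≤ L - Λ / q * (1 - η) := by
    have hLΛ : lk ≤ L - Λ := by
      rw [hΛ]; linarith
    by_cases hcase : (q + 1) * (q * (L - Λ)) ≤ Λ
    · refine ⟨q * (L - Λ) / Λ, by
        apply div_nonneg _ hΛ0.le
        nlinarith, ?_, ?_, ?_⟩
      · rw [← mul_div_assoc, div_le_one hΛ0]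
        exact hcase
      · apply le_of_eq
        field_simp
      · have e : L - Λ / q * (1 - q * (L - Λ) / Λ) = L - Λ / q + (L - Λ) := by
          field_simp
          ring
        rw [e]
        have hldΛ : ld ≤ Λ / q := by
          rw [le_div_iff₀ (by linarith)]
          rw [hΛ]; linarith
        have e2 : L - Λ / q + (L - Λ) = 2 * (L - Λ) + (q - 1) * (Λ / q) := by
          field_simp
          ring
        rw [e2]
        nlinarith
    · push Not at hcase
      refine ⟨1 / (q + 1), by positivity, ?_, ?_, ?_⟩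
      · rw [mul_one_div, div_self (by positivity)]
      · rw [mul_one_div, div_le_iff₀ (by positivity), div_le_iff₀ (by linarith)]
        linarith
      · have e : L - Λ / q * (1 - 1 / (q + 1)) = lh / (q + 1) := by
          rw [hΛ]
          field_simp
          ring
        rw [e, le_div_iff₀ (by positivity)]
        linarith
  obtain ⟨x, P, hord, hA, hB, hC, hD⟩ := hG.exists_order hq hη0 hη1
  refine ⟨x, P, hord, ?_⟩
  intro j i hji hiq M' hM'
  -- marginal bounds
  have hldΛ : ld ≤ Λ / q := by
    rw [le_div_iff₀ (by linarith)]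
    rw [hΛ]; linarith
  have hLΛ : lk ≤ L - Λ := by
    rw [hΛ]; linarith
  have hM'0 : 0 < M' := by
    have h := hM' y0 hy0
    have : 0 < (vals H (P j) (x i) y0).card :=
      card_pos.2 ⟨_, mem_image_of_mem _ (self_mem_cls hy0)⟩
    omega
  have hM'r : (0 : ℝ) < M' := by exact_mod_cast hM'0
  have hxP : x i ∉ P j := hord.notMem' hji hiq
  have hF := Fd_mg H (P j) (x i) hxP M' hM'0 hM'
  -- convert a bound on the scaled marginal
  have hconv : ∀ b : ℝ, mg (fun I => c * Fd H I) (x i) (P j) ≤ b →
      L - Λ / q * b ≤ Real.log M' := by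
    intro b hb
    have h1 : mg (fun I => c * Fd H I) (x i) (P j) = c * mg (Fd H) (x i) (P j) := by
      unfold mg; ring
    rw [h1] at hb
    have h2 : c * (H.card * (L - Real.log M')) ≤ b :=
      (mul_le_mul_of_nonneg_left hF hc0.le).trans hb
    have h3 : c * (H.card * (L - Real.log M')) = q / Λ * (L - Real.log M') := by
      rw [hc]
      field_simp
    rw [h3] at h2
    have h4 : L - Real.log M' ≤ Λ / q * b := by
      have h5 := mul_le_mul_of_nonneg_left h2 (by positivity : 0 ≤ Λ / q)
      have h6 : Λ / q * (q / Λ * (L - Real.log M')) = L - Real.log M' := by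
        field_simp
      linarith
    linarith
  -- logarithm of the product
  have hbrpos : ∀ t, 0 < br q k d t := by
    intro t
    unfold br
    split_ifs <;> omega
  have hprod : Real.log ((∏ t ∈ Icc j i, br q k d t : ℕ) : ℝ) =
      ∑ t ∈ Icc j i, Real.log (br q k d t) := by
    push_cast
    rw [Real.log_prod]
    intro t _
    have := hbrpos t
    positivity
  have hmid : ∀ a b : ℕ, 1 ≤ a → b < q → a ≤ b + 1 →
      ∑ t ∈ Icc a b, Real.log (br q k d t) = ((b : ℝ) + 1 - a) * ld := by
    intro a b ha hb hab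
    have : ∀ t ∈ Icc a b, Real.log (br q k d t) = ld := by
      intro t ht
      rw [mem_Icc] at ht
      have : br q k d t = d := by
        unfold br
        rw [if_neg (by omega)]
      rw [this]
    rw [sum_congr rfl this, sum_const, Nat.card_Icc, nsmul_eq_mul, Nat.cast_sub hab]
    push_cast
    ring
  have hbr0 : br q k d 0 = k := by unfold br; rw [if_pos (Or.inl rfl)]
  have hbrq : br q k d q = k := by unfold br; rw [if_pos (Or.inr rfl)]
  suffices hlog : ∑ t ∈ Icc j i, Real.log (br q k d t) ≤ Real.log M' by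
    rw [← hprod] at hlog
    have hp : 0 < ∏ t ∈ Icc j i, br q k d t := prod_pos fun t _ => hbrpos t
    have := (Real.log_le_log_iff (by exact_mod_cast hp) hM'r).1 hlog
    exact_mod_cast this
  have hji' : (j : ℝ) ≤ i := by exact_mod_cast hji
  have hiq' : (i : ℝ) ≤ q := by exact_mod_cast hiq
  have hΛq : 0 < Λ / q := by positivity
  have hΛqq : Λ / q * q = Λ := by field_simp
  by_cases hj : j = 0
  · subst hj
    by_cases hi : i = q
    · subst hi
      have h := hconv _ hD
      refine le_trans ?_ h
      have e1 : Icc 0 i = insert 0 (Icc 1 i) := by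
        ext t; simp only [mem_Icc, mem_insert]; omega
      have e2 : Icc 1 i = insert i (Icc 1 (i - 1)) := by
        ext t; simp only [mem_Icc, mem_insert]; omega
      rw [e1, sum_insert (by simp), e2, sum_insert (by simp; omega), hbr0, hbrq,
        hmid 1 (i - 1) le_rfl (by omega) (by omega), Nat.cast_sub hq]
      push_cast
      linarith
    · have h := hconv _ (hC i (by omega))
      refine le_trans ?_ h
      have e1 : Icc 0 i = insert 0 (Icc 1 i) := by
        ext t; simp only [mem_Icc, mem_insert]; omega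
      rw [e1, sum_insert (by simp), hbr0, hmid 1 i le_rfl (by omega) (by omega)]
      have hi0 : (0 : ℝ) ≤ i := Nat.cast_nonneg i
      push_cast
      nlinarith [mul_le_mul_of_nonneg_left hldΛ hi0]
  · have hj1 : 1 ≤ j := by omega
    have hj1r : (1 : ℝ) ≤ j := by exact_mod_cast hj1
    by_cases hi : i = q
    · subst hi
      have h := hconv _ (hB j hj1 hji)
      refine le_trans ?_ h
      have e2 : Icc j i = insert i (Icc j (i - 1)) := by
        ext t; simp only [mem_Icc, mem_insert]; omega
      rw [e2, sum_insert (by simp; omega), hbrq, hmid j (i - 1) hj1 (by omega) (by omega),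
        Nat.cast_sub hq]
      push_cast
      nlinarith [mul_le_mul_of_nonneg_left hldΛ (by linarith : (0 : ℝ) ≤ i - j)]
    · have h := hconv _ (hA j i hj1 hji (by omega))
      refine le_trans ?_ h
      rw [hmid j i hj1 (by omega) (by omega)]
      nlinarith [mul_le_mul_of_nonneg_left hldΛ (by linarith : (0 : ℝ) ≤ i + 1 - j)]

end Main

end Pool.Agent.Helper42.Unav
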