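import Pool.Agent.Helper42.Unav.Entropy
import Pool.Agent.Helper42.Unav.Cover

/-!
# The lower bound: generalised stars are unavoidable
-/

set_option autoImplicit false

namespace Pool.Agent.Helper42.Unav

open Finset

/-! ### Partite subhypergraphs -/

/-- Number of colourings with prescribed values on `e`. -/
lemma card_prescribed {n r : ℕ} (e : Finset (Fin n)) (σ : Fin n → Fin r) :
    (univ.filter (fun χ : Fin n → Fin r => ∀ v ∈ e, χ v = σ v)).card * r ^ e.card = r ^ n := by
  classical
  have h1 : univ.filter (fun χ : Fin n → Fin r => ∀ v ∈ e, χ v = σ v) =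
      Fintype.piFinset (fun v => if v ∈ e then ({σ v} : Finset (Fin r)) else univ) := by
    ext χ
    rw [mem_filter, Fintype.mem_piFinset]
    constructor
    · rintro ⟨_, h⟩ v
      split_ifs with hv
      · rw [mem_singleton]; exact h v hv
      · exact mem_univ _
    · intro h
      refine ⟨mem_univ _, fun v hv => ?_⟩
      have := h v
      rw [if_pos hv, mem_singleton] at this
      exact this
  rw [h1, Fintype.card_piFinset]
  have h2 : ∀ v : Fin n, (if v ∈ e then ({σ v} : Finset (Fin r)) else univ).card =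
      if v ∈ e then 1 else r := by
    intro v
    split_ifs <;> simp
  rw [prod_congr rfl (fun v _ => h2 v), prod_ite, prod_const_one, one_mul, prod_const]
  have h3 : (univ.filter (fun v : Fin n => v ∉ e)).card + e.card = n := by
    have : univ.filter (fun v : Fin n => v ∉ e) = univ \ e := by
      ext v; simp
    rw [this, card_sdiff_of_subset (subset_univ _), card_univ, Fintype.card_fin]
    have := card_le_univ e
    rw [Fintype.card_fin] at this
    omega
  rw [← pow_add, h3]

/-- The increasing enumeration of an `r`-set. -/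
noncomputable def enum {n r : ℕ} (hn : 0 < n) (e : Finset (Fin n)) : Fin r → Fin n :=
  if h : e.card = r then fun i => e.orderEmbOfFin h i else fun _ => ⟨0, hn⟩

lemma enum_inj {n r : ℕ} (hn : 0 < n) {e : Finset (Fin n)} (he : e.card = r) :
    Function.Injective (enum hn e : Fin r → Fin n) := by
  unfold enum
  rw [dif_pos he]
  exact (e.orderEmbOfFin he).injective

lemma image_enum {n r : ℕ} (hn : 0 < n) {e : Finset (Fin n)} (he : e.card = r) :
    univ.image (enum hn e : Fin r → Fin n) = e := by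
  unfold enum
  rw [dif_pos he]
  apply coe_injective
  rw [coe_image, coe_univ, Set.image_univ]
  exact e.range_orderEmbOfFin he

/-- Some colouring of the vertices has many rainbow edges. -/
lemma exists_colouring {n r : ℕ} (hn : 0 < n) (hr : 0 < r) (G : Finset (Finset (Fin n)))
    (hG : ∀ e ∈ G, e.card = r) :
    ∃ χ : Fin n → Fin r, G.card ≤
      (G.filter (fun e => ∀ i, χ (enum hn e i) = i)).card * r ^ r := by
  classical
  by_contra hcon
  push Not at hcon
  have h1 : ∑ χ : Fin n → Fin r, (G.filter (fun e => ∀ i, χ (enum hn e i) = i)).card * r ^ r =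
      G.card * r ^ n := by
    rw [← sum_mul]
    have h2 : ∑ χ : Fin n → Fin r, (G.filter (fun e => ∀ i, χ (enum hn e i) = i)).card =
        ∑ e ∈ G, (univ.filter (fun χ : Fin n → Fin r => ∀ i, χ (enum hn e i) = i)).card := by
      simp_rw [card_filter]
      rw [sum_comm]
    rw [h2, sum_mul]
    have h3 : ∀ e ∈ G, (univ.filter (fun χ : Fin n → Fin r => ∀ i, χ (enum hn e i) = i)).card *
        r ^ r = r ^ n := by
      intro e he
      have hinj := enum_inj hn (hG e he)
      -- the inverse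
      let σ : Fin n → Fin r := fun v => if h : ∃ i, enum hn e i = v then h.choose else ⟨0, hr⟩
      have hσ : ∀ i, σ (enum hn e i) = i := by
        intro i
        have h : ∃ j, enum hn e j = enum hn e i := ⟨i, rfl⟩
        simp only [σ, dif_pos h]
        exact hinj h.choose_spec
      have h4 : univ.filter (fun χ : Fin n → Fin r => ∀ i, χ (enum hn e i) = i) =
          univ.filter (fun χ : Fin n → Fin r => ∀ v ∈ e, χ v = σ v) := by
        ext χ
        rw [mem_filter, mem_filter]
        constructor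
        · rintro ⟨_, h⟩
          refine ⟨mem_univ _, fun v hv => ?_⟩
          rw [← image_enum hn (hG e he), mem_image] at hv
          obtain ⟨i, _, rfl⟩ := hv
          rw [h i, hσ i]
        · rintro ⟨_, h⟩
          refine ⟨mem_univ _, fun i => ?_⟩
          have hmem : enum hn e i ∈ univ.image (enum hn e : Fin r → Fin n) :=
            mem_image_of_mem _ (mem_univ i)
          rw [image_enum hn (hG e he)] at hmem
          rw [h _ hmem, hσ i]
      rw [h4]
      have := card_prescribed e σ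
      rwa [hG e he] at this
    rw [sum_congr rfl h3, sum_const, smul_eq_mul]
  have h5 : ∑ χ : Fin n → Fin r, (G.filter (fun e => ∀ i, χ (enum hn e i) = i)).card * r ^ r <
      ∑ _χ : Fin n → Fin r, G.card := by
    apply sum_lt_sum_of_nonempty
    · exact ⟨fun _ => ⟨0, hr⟩, mem_univ _⟩
    · intro χ _
      exact hcon χ
  have hc : (univ : Finset (Fin n → Fin r)).card = r ^ n := by simp
  rw [h1, sum_const, hc, smul_eq_mul, mul_comm] at h5
  exact lt_irrefl _ h5

/-! ### Branching numbers as a list -/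

/-- The list of branching numbers. -/
def brs (q k d : ℕ) : List ℕ := (List.range (q + 1)).map (br q k d)

lemma length_brs (q k d : ℕ) : (brs q k d).length = q + 1 := by
  simp [brs]

lemma br_pos {q k d : ℕ} (hk : 1 ≤ k) (hd : 1 ≤ d) (t : ℕ) : 1 ≤ br q k d t := by
  unfold br
  split_ifs <;> omega

lemma brs_pos {q k d : ℕ} (hk : 1 ≤ k) (hd : 1 ≤ d) : ∀ b ∈ brs q k d, 1 ≤ b := by
  intro b hb
  unfold brs at hb
  rw [List.mem_map] at hb
  obtain ⟨t, _, rfl⟩ := hb
  exact br_pos hk hd t

lemma list_prod_range (f : ℕ → ℕ) (m : ℕ) :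
    ((List.range m).map f).prod = ∏ t ∈ range m, f t := by
  induction m with
  | zero => simp
  | succ m ih => rw [List.range_succ, List.map_append, List.prod_append, ih, prod_range_succ]; simp

lemma prod_take_brs (q k d m : ℕ) (hm : m ≤ q + 1) :
    ((brs q k d).take m).prod = ∏ t ∈ range m, br q k d t := by
  unfold brs
  rw [← List.map_take, List.take_range, min_eq_left hm, list_prod_range]

lemma prod_brs_mid {q k d : ℕ} (hk : 1 ≤ k) (hd : 1 ≤ d) {j i : ℕ} (hji : j ≤ i) (hi : i ≤ q) :
    (((brs q k d).take (i + 1)).drop j).prod = ∏ t ∈ Icc j i, br q k d t := by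
  have h1 := List.prod_take_mul_prod_drop ((brs q k d).take (i + 1)) j
  rw [List.take_take, min_eq_left (by omega), prod_take_brs q k d j (by omega),
    prod_take_brs q k d (i + 1) (by omega)] at h1
  have h2 : ∏ t ∈ range (i + 1), br q k d t =
      (∏ t ∈ range j, br q k d t) * ∏ t ∈ Icc j i, br q k d t := by
    rw [← prod_union]
    · congr 1
      ext t
      simp only [mem_range, mem_union, mem_Icc]
      omega
    · rw [disjoint_left]
      intro t h3 h4
      rw [mem_range] at h3
      rw [mem_Icc] at h4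
      omega
  rw [h2] at h1
  have h3 : 0 < ∏ t ∈ range j, br q k d t := prod_pos fun t _ => br_pos hk hd t
  exact Nat.eq_of_mul_eq_mul_left h3 h1

lemma prod_brs {q k d : ℕ} (hq : 1 ≤ q) : (brs q k d).prod = k ^ 2 * d ^ (q - 1) := by
  have h : (brs q k d).take (q + 1) = brs q k d := by
    rw [List.take_of_length_le]; rw [length_brs]
  rw [← h, prod_take_brs q k d (q + 1) le_rfl, prod_range_succ]
  obtain ⟨p, rfl⟩ : ∃ p, q = p + 1 := ⟨q - 1, by omega⟩
  rw [prod_range_succ']
  have h1 : ∀ t ∈ range p, br (p + 1) k d (t + 1) = d := by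
    intro t ht
    rw [mem_range] at ht
    unfold br
    rw [if_neg (by omega)]
  rw [prod_congr rfl h1, prod_const, card_range]
  have h2 : br (p + 1) k d 0 = k := by unfold br; rw [if_pos (Or.inl rfl)]
  have h3 : br (p + 1) k d (p + 1) = k := by unfold br; rw [if_pos (Or.inr rfl)]
  rw [h2, h3]
  simp only [Nat.add_sub_cancel]
  ring

/-! ### Existence of a star -/

/-- The list of coordinates of `x` in the order `σ`. -/
def lst {q : ℕ} {α : Type*} (σ : Fin (q + 1) → Fin (q + 1)) (x : Fin (q + 1) → α) : List α :=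
  List.ofFn (fun t => x (σ t))

lemma lst_getElem {q : ℕ} {α : Type*} (σ : Fin (q + 1) → Fin (q + 1)) (x : Fin (q + 1) → α)
    (t : ℕ) (ht : t < q + 1) : (lst σ x)[t]? = some (x (σ ⟨t, ht⟩)) := by
  unfold lst
  rw [List.getElem?_ofFn, dif_pos ht]

lemma length_lst {q : ℕ} {α : Type*} (σ : Fin (q + 1) → Fin (q + 1)) (x : Fin (q + 1) → α) :
    (lst σ x).length = q + 1 := by
  unfold lst; simp

/-- The number of colour patterns. -/
def patt (q : ℕ) : ℕ :=
  Fintype.card ((Fin (q + 1) → Fin (q + 1)) → Fin (q + 1) × Fin (q + 1))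

lemma patt_pos (q : ℕ) : 0 < patt q := Fintype.card_pos

/-- A large set of tuples contains a generalised star along some order of the coordinates. -/
theorem exists_star {q n : ℕ} (hq : 1 ≤ q) (H : Finset (Fin (q + 1) → Fin n)) {k d : ℕ}
    (hk : 1 ≤ k) (hd : 1 ≤ d) (hn : 0 < n) (h1 : patt q * (k * n ^ q) ≤ H.card)
    (h2 : d ^ q * H.card ≤ n ^ (q + 1))
    (h3 : patt q * (k ^ 2 * d ^ (q - 1)) ^ (q + 1) ≤ H.card) (hlt : H.card < n ^ (q + 1)) :
    ∃ (σ : Fin (q + 1) → Fin (q + 1)) (φ : List ℕ → Fin n), Function.Injective σ ∧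
      IsForest (brs q k d) ((H.image (lst σ) : Finset (List (Fin n))) : Set (List (Fin n))) φ := by
  classical
  have : Nonempty (Fin n) := ⟨⟨0, hn⟩⟩
  by_contra hcon
  push Not at hcon
  have hcol : ∀ σ : Fin (q + 1) → Fin (q + 1), ∃ c : List (Fin n) → ℕ × ℕ,
      Function.Injective σ → (∀ l ∈ H.image (lst σ), (c l).1 ≤ (c l).2 ∧ (c l).2 < q + 1) ∧
      ∀ j i p, j ≤ i → i < q + 1 →
        (((H.image (lst σ)).filter (fun l => c l = (j, i) ∧ l.take j = p)).image
          (fun l => l[i]?)).card < (((brs q k d).take (i + 1)).drop j).prod := by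
    intro σ
    by_cases hσ : Function.Injective σ
    · rcases cover (brs q k d) (brs_pos hk hd) (H.image (lst σ)) (by
        intro l hl
        rw [mem_image] at hl
        obtain ⟨x, _, rfl⟩ := hl
        rw [length_lst, length_brs]) with ⟨φ, hφ⟩ | ⟨c, hc1, hc2⟩
      · exact absurd hφ (hcon σ φ hσ)
      · refine ⟨c, fun _ => ⟨?_, ?_⟩⟩
        · rwa [length_brs] at hc1
        · rwa [length_brs] at hc2
    · exact ⟨fun _ => (0, 0), fun h => absurd h hσ⟩
  choose c hc using hcol
  -- colour patterns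
  let K : (Fin (q + 1) → Fin n) → ((Fin (q + 1) → Fin (q + 1)) → Fin (q + 1) × Fin (q + 1)) :=
    fun x σ => if h : (c σ (lst σ x)).1 < q + 1 ∧ (c σ (lst σ x)).2 < q + 1 then
      (⟨_, h.1⟩, ⟨_, h.2⟩) else (⟨0, by omega⟩, ⟨0, by omega⟩)
  have hK : ∀ x ∈ H, ∀ σ, Function.Injective σ →
      c σ (lst σ x) = (((K x σ).1 : ℕ), ((K x σ).2 : ℕ)) := by
    intro x hx σ hσ
    have h := (hc σ hσ).1 (lst σ x) (mem_image_of_mem _ hx)
    have h' : (c σ (lst σ x)).1 < q + 1 ∧ (c σ (lst σ x)).2 < q + 1 := ⟨by omega, h.2⟩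
    simp only [K, dif_pos h']
  -- a large class
  obtain ⟨v, hv⟩ : ∃ v, H.card ≤ (H.filter (fun x => K x = v)).card * patt q := by
    by_contra hno
    push Not at hno
    have e1 : H.card = ∑ v, (H.filter (fun x => K x = v)).card :=
      card_eq_sum_card_fiberwise (fun x _ => mem_univ _)
    have e2 : ∑ v, (H.filter (fun x => K x = v)).card * patt q <
        ∑ _v : ((Fin (q + 1) → Fin (q + 1)) → Fin (q + 1) × Fin (q + 1)), H.card := by
      apply sum_lt_sum_of_nonempty univ_nonempty
      intro v _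
      exact hno v
    rw [← sum_mul, ← e1, sum_const, card_univ, smul_eq_mul, mul_comm] at e2
    exact lt_irrefl _ e2
  set H' := H.filter (fun x => K x = v) with hH'
  have hsub : H' ⊆ H := filter_subset _ _
  have hpp := patt_pos q
  have hcardle : H'.card ≤ H.card := card_le_card hsub
  have hnq : 0 < n ^ q := pow_pos hn q
  have g1 : k * n ^ q ≤ H'.card := by
    have : patt q * (k * n ^ q) ≤ patt q * H'.card := by
      rw [mul_comm (patt q) H'.card]; exact h1.trans hv
    exact Nat.le_of_mul_le_mul_left this hpp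
  have g3 : (k ^ 2 * d ^ (q - 1)) ^ (q + 1) ≤ H'.card := by
    have : patt q * (k ^ 2 * d ^ (q - 1)) ^ (q + 1) ≤ patt q * H'.card := by
      rw [mul_comm (patt q) H'.card]; exact h3.trans hv
    exact Nat.le_of_mul_le_mul_left this hpp
  have hne : H'.Nonempty := by
    rw [← card_pos]
    have : 0 < k * n ^ q := Nat.mul_pos hk hnq
    omega
  have hcardn : Fintype.card (Fin n) = n := Fintype.card_fin n
  obtain ⟨x, P, hord, hfib⟩ := exists_order_fiber hq (Fintype.card_fin (q + 1)) H' hne hk hd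
    (by rw [hcardn]; exact g1)
    (by rw [hcardn]; exact (Nat.mul_le_mul_left _ hcardle).trans h2) g3
    (by rw [hcardn]; omega)
  -- the order as a function
  let σ : Fin (q + 1) → Fin (q + 1) := fun t => x t
  have hσ : Function.Injective σ := by
    intro a b hab0
    have hab : x a = x b := hab0
    by_contra hne'
    rcases lt_or_gt_of_ne (fun h : (a : ℕ) = b => hne' (Fin.ext h)) with h | h
    · exact absurd (hab ▸ hord.mem h (by omega) : x b ∈ P b) (hord.notMem b (by omega))
    · exact absurd (hab ▸ hord.mem h (by omega) : x a ∈ P a) (hord.notMem a (by omega))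
  have hPmem : ∀ j t, t < j → j ≤ q + 1 → x t ∈ P j := fun j t h1 h2 => hord.mem h1 h2
  have hKv : ∀ y ∈ H', c σ (lst σ y) = (((v σ).1 : ℕ), ((v σ).2 : ℕ)) := by
    intro y hy
    rw [hH', mem_filter] at hy
    rw [hK y hy.1 σ hσ, hy.2]
  obtain ⟨y0, hy0⟩ := hne
  have hji := (hc σ hσ).1 (lst σ y0) (mem_image_of_mem _ (hsub hy0))
  rw [hKv y0 hy0] at hji
  dsimp only at hji
  have hi := (v σ).2.isLt
  have hbound : ∀ y ∈ H', (vals H' (P (v σ).1) (x (v σ).2) y).card <
      ∏ t ∈ Icc ((v σ).1 : ℕ) (v σ).2, br q k d t := by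
    intro y hy
    have h4 := (hc σ hσ).2 (v σ).1 (v σ).2 ((lst σ y).take (v σ).1) hji.1 hi
    rw [prod_brs_mid hk hd hji.1 (by omega)] at h4
    refine lt_of_le_of_lt ?_ h4
    rw [← card_image_of_injective (vals H' (P (v σ).1) (x (v σ).2) y)
      (Option.some_injective (Fin n))]
    apply card_le_card
    intro o ho
    rw [mem_image] at ho
    obtain ⟨a, ha, rfl⟩ := ho
    unfold vals at ha
    rw [mem_image] at ha
    obtain ⟨z, hz, rfl⟩ := ha
    rw [mem_cls] at hz
    rw [mem_image]
    refine ⟨lst σ z, ?_, ?_⟩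
    · rw [mem_filter]
      refine ⟨mem_image_of_mem _ (hsub hz.1), hKv z hz.1, ?_⟩
      apply List.ext_getElem?
      intro t
      rw [List.getElem?_take, List.getElem?_take]
      split_ifs with ht
      · rw [lst_getElem σ z t (by omega), lst_getElem σ y t (by omega)]
        congr 1
        exact hz.2 _ (hPmem _ _ ht (by omega))
      · rfl
    · rw [lst_getElem σ z _ hi]
  have hpos : 0 < ∏ t ∈ Icc ((v σ).1 : ℕ) (v σ).2, br q k d t :=
    prod_pos fun t _ => br_pos hk hd t
  have := hfib (v σ).1 (v σ).2 hji.1 (by omega)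
    (∏ t ∈ Icc ((v σ).1 : ℕ) (v σ).2, br q k d t - 1) (by
      intro y hy
      have := hbound y hy
      omega)
  omega

/-! ### Embedding the star hypergraph -/

/-- The edge of the star given by the leaf `a`. -/
def Ed {n : ℕ} (q : ℕ) (φ : List ℕ → Fin n) (a : List ℕ) : Finset (Fin n) :=
  (range (q + 1)).image (fun t => φ (a.take (t + 1)))

/-- The vertex set of the star. -/
def nodes (bs : List ℕ) : Finset (List ℕ) := (Icc 1 bs.length).biUnion (prefs bs)

/-- Every `r`-graph with `e` edges contains the generalised star. -/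
theorem exists_star_graph {q n : ℕ} (hq : 1 ≤ q) {k d e : ℕ} (hk : 1 ≤ k) (hd : 1 ≤ d)
    (h1 : (patt q * (q + 1) ^ (q + 1)) * (k * n ^ q) ≤ e) (h2 : d ^ q * e ≤ n ^ (q + 1))
    (h3 : (patt q * (q + 1) ^ (q + 1)) * (k ^ 2 * d ^ (q - 1)) ^ (q + 1) ≤ e)
    (hlt : e < n ^ (q + 1)) (G : Finset (Finset (Fin n))) (hG : ∀ g ∈ G, g.card = q + 1)
    (hGe : G.card = e) :
    ∃ φ : List ℕ → Fin n, (∀ a ∈ prefs (brs q k d) (q + 1), Ed q φ a ∈ G) ∧
      Set.InjOn φ (nodes (brs q k d) : Set (List ℕ)) := by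
  classical
  have hn : 0 < n := by
    rcases Nat.eq_zero_or_pos n with h | h
    · subst h
      simp at hlt
    · exact h
  obtain ⟨χ, hχ⟩ := exists_colouring hn (Nat.succ_pos q) G hG
  set G' := G.filter (fun e => ∀ i, χ (enum hn e i) = i) with hG'
  let H : Finset (Fin (q + 1) → Fin n) := G'.image (fun e => enum hn e)
  have hHcard : H.card = G'.card := by
    apply card_image_of_injOn
    intro a ha b hb hab
    have h1 : a ∈ G := (mem_filter.1 (mem_coe.1 ha)).1
    have h2 : b ∈ G := (mem_filter.1 (mem_coe.1 hb)).1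
    have hab' : (enum hn a : Fin (q + 1) → Fin n) = enum hn b := hab
    rw [← image_enum hn (hG a h1), ← image_enum hn (hG b h2), hab']
  have hle : H.card ≤ e := by
    rw [hHcard, ← hGe]
    exact card_le_card (filter_subset _ _)
  have hR : 0 < (q + 1) ^ (q + 1) := by positivity
  have key : ∀ X : ℕ, (patt q * (q + 1) ^ (q + 1)) * X ≤ e → patt q * X ≤ H.card := by
    intro X hX
    have : (q + 1) ^ (q + 1) * (patt q * X) ≤ (q + 1) ^ (q + 1) * H.card := by
      calc (q + 1) ^ (q + 1) * (patt q * X) = (patt q * (q + 1) ^ (q + 1)) * X := by ring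
        _ ≤ e := hX
        _ ≤ (q + 1) ^ (q + 1) * H.card := by
          rw [hHcard, mul_comm, ← hGe]; exact hχ
    exact Nat.le_of_mul_le_mul_left this hR
  obtain ⟨σ, φ, hσ, hφ⟩ := exists_star hq H hk hd hn (key _ h1)
    ((Nat.mul_le_mul_left _ hle).trans h2) (key _ h3) (lt_of_le_of_lt hle hlt)
  have hlen := length_brs q k d
  -- description of the vertices on a path
  have hpath : ∀ a ∈ prefs (brs q k d) (q + 1), ∃ g ∈ G',
      ∀ t (ht : t < q + 1), φ (a.take (t + 1)) = enum hn g (σ ⟨t, ht⟩) := by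
    intro a ha
    have h4 := hφ.1 a (by rw [hlen]; exact ha)
    rw [mem_coe, mem_image] at h4
    obtain ⟨x, hx, hxa⟩ := h4
    rw [mem_image] at hx
    obtain ⟨g, hg, rfl⟩ := hx
    refine ⟨g, hg, fun t ht => ?_⟩
    have h5 := getElem_pathOf φ a t (by rw [length_of_mem_prefs ha]; exact ht)
    rw [← hxa, lst_getElem σ _ t ht] at h5
    exact (Option.some_injective _ h5).symm
  have hσs : Function.Surjective σ := Finite.surjective_of_injective hσ
  refine ⟨φ, ?_, ?_⟩
  · intro a ha
    obtain ⟨g, hg, hga⟩ := hpath a ha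
    have hgG : g ∈ G := (mem_filter.1 hg).1
    have : Ed q φ a = g := by
      rw [← image_enum hn (hG g hgG)]
      ext v
      unfold Ed
      rw [mem_image, mem_image]
      constructor
      · rintro ⟨t, ht, rfl⟩
        rw [mem_range] at ht
        exact ⟨σ ⟨t, ht⟩, mem_univ _, (hga t ht).symm⟩
      · rintro ⟨i, _, rfl⟩
        obtain ⟨t, rfl⟩ := hσs i
        exact ⟨t, mem_range.2 t.isLt, hga t t.isLt⟩
    rw [this]
    exact hgG
  · -- colours of the vertices
    have hcolour : ∀ t l, 1 ≤ t → (ht : t ≤ q + 1) → l ∈ prefs (brs q k d) t →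
        χ (φ l) = σ ⟨t - 1, by omega⟩ := by
      intro t l ht1 ht hl
      obtain ⟨a, ha, hta⟩ := exists_leaf (brs_pos hk hd) hl
      rw [hlen] at ha
      obtain ⟨g, hg, hga⟩ := hpath a ha
      have h6 := hga (t - 1) (by omega)
      rw [Nat.sub_add_cancel ht1, hta] at h6
      rw [h6]
      exact (mem_filter.1 hg).2 _
    intro l hl l' hl' hll'
    rw [mem_coe] at hl hl'
    unfold nodes at hl hl'
    rw [mem_biUnion] at hl hl'
    obtain ⟨t, ht, hlt'⟩ := hl
    obtain ⟨t', ht', hlt''⟩ := hl'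
    rw [mem_Icc, hlen] at ht ht'
    have h7 := hcolour t l ht.1 ht.2 hlt'
    have h8 := hcolour t' l' ht'.1 ht'.2 hlt''
    rw [hll', h8] at h7
    have h9 := hσ h7
    rw [Fin.mk.injEq] at h9
    have h10 : t = t' := by omega
    subst h10
    exact hφ.2 t (mem_coe.2 hlt') (mem_coe.2 hlt'') hll'

lemma take_mem_nodes {q k d : ℕ} {a : List ℕ}
    (ha : a ∈ prefs (brs q k d) (q + 1)) {t : ℕ} (ht : t < q + 1) :
    a.take (t + 1) ∈ nodes (brs q k d) := by
  unfold nodes
  rw [mem_biUnion]
  exact ⟨t + 1, by rw [mem_Icc, length_brs]; omega, take_mem_prefs ha (by omega)⟩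

lemma Ed_inj {q n k d : ℕ} {φ : List ℕ → Fin n}
    (hφ : Set.InjOn φ (nodes (brs q k d) : Set (List ℕ))) :
    Set.InjOn (Ed q φ) (prefs (brs q k d) (q + 1) : Set (List ℕ)) := by
  intro a ha b hb hab
  rw [mem_coe] at ha hb
  have hla := length_of_mem_prefs ha
  have hlb := length_of_mem_prefs hb
  have h1 : φ (a.take (q + 1)) ∈ Ed q φ a := by
    unfold Ed
    exact mem_image.2 ⟨q, mem_range.2 (by omega), rfl⟩
  rw [hab] at h1
  unfold Ed at h1
  rw [mem_image] at h1
  obtain ⟨t, ht, h2⟩ := h1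
  rw [mem_range] at ht
  have h3 := hφ (mem_coe.2 (take_mem_nodes hb ht)) (mem_coe.2 (take_mem_nodes ha (by omega))) h2
  have h4 := congrArg List.length h3
  rw [List.length_take, List.length_take, hla, hlb] at h4
  have h5 : t = q := by omega
  subst h5
  rw [List.take_of_length_le (by omega), List.take_of_length_le (by omega)] at h3
  exact h3.symm

lemma card_Ed {q n k d : ℕ} {φ : List ℕ → Fin n}
    (hφ : Set.InjOn φ (nodes (brs q k d) : Set (List ℕ))) {a : List ℕ}
    (ha : a ∈ prefs (brs q k d) (q + 1)) : (Ed q φ a).card = q + 1 := by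
  unfold Ed
  rw [card_image_of_injOn, card_range]
  intro t ht t' ht' htt'
  rw [mem_coe, mem_range] at ht ht'
  have h3 := hφ (mem_coe.2 (take_mem_nodes ha ht)) (mem_coe.2 (take_mem_nodes ha ht')) htt'
  have h4 := congrArg List.length h3
  rw [List.length_take, List.length_take, length_of_mem_prefs ha] at h4
  omega

/-- Extending a partial injection of `Fin n`. -/
lemma extend_inj {n : ℕ} {β : Type*} [DecidableEq β] (N : Finset β) (φ₀ φ : β → Fin n)
    (h0 : Set.InjOn φ₀ (N : Set β)) (h1 : Set.InjOn φ (N : Set β)) :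
    ∃ ψ : Fin n ↪ Fin n, ∀ l ∈ N, ψ (φ₀ l) = φ l := by
  classical
  let f : Fin n → Fin n := fun v => if h : ∃ l ∈ N, φ₀ l = v then φ h.choose else v
  have hf : ∀ l ∈ N, f (φ₀ l) = φ l := by
    intro l hl
    have h : ∃ l' ∈ N, φ₀ l' = φ₀ l := ⟨l, hl, rfl⟩
    simp only [f, dif_pos h]
    rw [h0 (mem_coe.2 h.choose_spec.1) (mem_coe.2 hl) h.choose_spec.2]
  have hinj : Set.InjOn f ((N.image φ₀ : Finset (Fin n)) : Set (Fin n)) := by
    intro a ha b hb hab
    rw [mem_coe, mem_image] at ha hb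
    obtain ⟨l, hl, rfl⟩ := ha
    obtain ⟨l', hl', rfl⟩ := hb
    rw [hf l hl, hf l' hl'] at hab
    rw [h1 (mem_coe.2 hl) (mem_coe.2 hl') hab]
  obtain ⟨g, hg⟩ := Finset.exists_equiv_extend_of_card_eq (t := (univ : Finset (Fin n)))
    (by simp) (subset_univ ((N.image φ₀).image f)) hinj
  refine ⟨⟨fun v => (g v : Fin n), fun a b hab => g.injective (Subtype.ext hab)⟩, ?_⟩
  intro l hl
  show (g (φ₀ l) : Fin n) = φ l
  rw [hg _ (mem_image_of_mem _ hl), hf l hl]

/-- The combinatorial lower bound. -/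
theorem lower_comb (r : ℕ) (hr : 2 ≤ r) : ∃ R : ℕ, 1 ≤ R ∧ ∀ n e k d : ℕ, 1 ≤ k → 1 ≤ d →
    R * (k * n ^ (r - 1)) ≤ e → d ^ (r - 1) * e ≤ n ^ r → R * (k ^ 2 * d ^ (r - 2)) ^ r ≤ e →
    e < n ^ r → e ≤ n.choose r →
    ∃ H : Finset (Finset (Fin n)), (∀ h ∈ H, h.card = r) ∧ H.card = k ^ 2 * d ^ (r - 2) ∧
      ∀ G : Finset (Finset (Fin n)), (∀ g ∈ G, g.card = r) → G.card = e →
        ∃ φ : Fin n ↪ Fin n, ∀ h ∈ H, h.map φ ∈ G := by
  classical
  obtain ⟨q, rfl⟩ : ∃ q, r = q + 1 := ⟨r - 1, by omega⟩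
  have hq : 1 ≤ q := by omega
  refine ⟨patt q * (q + 1) ^ (q + 1), Nat.mul_pos (patt_pos q) (by positivity), ?_⟩
  intro n e k d hk hd h1 h2 h3 hlt hchoose
  simp only [Nat.add_sub_cancel] at h1 h2
  have e2 : q + 1 - 2 = q - 1 := by omega
  rw [e2] at h3 ⊢
  -- a reference graph
  obtain ⟨G₀, hG₀sub, hG₀card⟩ : ∃ G₀ ⊆ powersetCard (q + 1) (univ : Finset (Fin n)),
      G₀.card = e := by
    apply exists_subset_card_eq
    rw [card_powersetCard, card_univ, Fintype.card_fin]
    exact hchoose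
  have hG₀ : ∀ g ∈ G₀, g.card = q + 1 := fun g hg => (mem_powersetCard.1 (hG₀sub hg)).2
  obtain ⟨φ₀, hφ₀1, hφ₀2⟩ := exists_star_graph hq hk hd h1 h2 h3 hlt G₀ hG₀ hG₀card
  refine ⟨(prefs (brs q k d) (q + 1)).image (Ed q φ₀), ?_, ?_, ?_⟩
  · intro h hh
    rw [mem_image] at hh
    obtain ⟨a, ha, rfl⟩ := hh
    exact card_Ed hφ₀2 ha
  · rw [card_image_of_injOn (Ed_inj hφ₀2), card_prefs _ _ (by rw [length_brs]),
      List.take_of_length_le (by rw [length_brs]), prod_brs hq]
  · intro G hG hGe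
    obtain ⟨φ, hφ1, hφ2⟩ := exists_star_graph hq hk hd h1 h2 h3 hlt G hG hGe
    obtain ⟨ψ, hψ⟩ := extend_inj (nodes (brs q k d)) φ₀ φ hφ₀2 hφ2
    refine ⟨ψ, ?_⟩
    intro h hh
    rw [mem_image] at hh
    obtain ⟨a, ha, rfl⟩ := hh
    have : (Ed q φ₀ a).map ψ = Ed q φ a := by
      unfold Ed
      rw [map_eq_image, image_image]
      apply image_congr
      intro t ht
      rw [mem_coe, mem_range] at ht
      exact hψ _ (take_mem_nodes ha ht)
    rw [this]
    exact hφ1 a ha

end Pool.Agent.Helper42.Unav
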