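import Mathlib

/-!
# The ordering theorem for supermodular functions

A supermodular, monotone set function `G` on a set with `q + 1` elements, with `G ∅ = 0` and total
at most `q`, admits an ordering of the elements along which all marginals are small.
-/

set_option autoImplicit false

namespace Pool.Agent.Helper42.Unav

open Finset

variable {V : Type*} [Fintype V] [DecidableEq V]

/-- Supermodular, monotone, normalised set functions of total at most `q` on `q + 1` elements. -/
structure SupFun (G : Finset V → ℝ) (q : ℕ) : Prop where
  empty : G ∅ = 0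
  mono : ∀ S u, G S ≤ G (insert u S)
  sup : ∀ S u w, u ∉ S → w ∉ S → u ≠ w →
    G (insert u S) + G (insert w S) ≤ G (insert u (insert w S)) + G S
  tot : G Finset.univ ≤ q
  card : Fintype.card V = q + 1

/-- The marginal of `u` over `S`. -/
def mg (G : Finset V → ℝ) (u : V) (S : Finset V) : ℝ := G (insert u S) - G S

namespace SupFun

variable {G : Finset V → ℝ} {q : ℕ} (hG : SupFun G q)
include hG

lemma mg_nonneg (u : V) (S : Finset V) : 0 ≤ mg G u S := by
  unfold mg
  linarith [hG.mono S u]

lemma mg_union {S : Finset V} {u : V} (D : Finset V) (hu : u ∉ S ∪ D) :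
    mg G u S ≤ mg G u (S ∪ D) := by
  induction D using Finset.induction_on with
  | empty => rw [union_empty]
  | insert a D _ ih =>
    rw [union_insert] at hu ⊢
    have hua : u ≠ a := by
      rintro rfl
      exact hu (mem_insert_self _ _)
    have huT : u ∉ S ∪ D := fun h => hu (mem_insert_of_mem h)
    refine (ih huT).trans ?_
    by_cases ha : a ∈ S ∪ D
    · rw [insert_eq_of_mem ha]
    · unfold mg
      linarith [hG.sup (S ∪ D) u a huT ha hua]

lemma mg_mono {S T : Finset V} {u : V} (hST : S ⊆ T) (hu : u ∉ T) : mg G u S ≤ mg G u T := by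
  have h : S ∪ T = T := union_eq_right.2 hST
  have := hG.mg_union (S := S) (u := u) T (by rwa [h])
  rwa [h] at this

lemma le_of_subset {S T : Finset V} (hST : S ⊆ T) : G S ≤ G T := by
  have h : ∀ D : Finset V, G S ≤ G (S ∪ D) := by
    intro D
    induction D using Finset.induction_on with
    | empty => rw [union_empty]
    | insert a D _ ih =>
      rw [union_insert]
      exact ih.trans (hG.mono _ a)
  have := h T
  rwa [union_eq_right.2 hST] at this

lemma le_tot (S : Finset V) : G S ≤ q := (hG.le_of_subset (subset_univ S)).trans hG.tot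

lemma nonneg (S : Finset V) : 0 ≤ G S := by
  rw [← hG.empty]
  exact hG.le_of_subset (empty_subset S)

/-- `G S + ∑ marginals over S ≤ G (S ∪ T)`. -/
lemma sum_mg_le {S T : Finset V} (hd : Disjoint S T) : G S + ∑ u ∈ T, mg G u S ≤ G (S ∪ T) := by
  induction T using Finset.induction_on with
  | empty => simp
  | insert a T ha ih =>
    rw [disjoint_insert_right] at hd
    rw [sum_insert ha, union_insert]
    have h1 := ih hd.2
    have h2 : mg G a S ≤ mg G a (S ∪ T) := hG.mg_union T (by
      rw [mem_union]; push Not; exact ⟨hd.1, ha⟩)
    have h3 : mg G a (S ∪ T) = G (insert a (S ∪ T)) - G (S ∪ T) := rfl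
    linarith

omit [Fintype V] hG in
lemma insert_eq (u : V) (S : Finset V) : G (insert u S) = G S + mg G u S := by
  unfold mg; ring

/-- One step of a chain. -/
lemma add_mg_le {u : V} {S T : Finset V} (hST : S ⊆ T) (hu : u ∉ T) :
    G T + mg G u S ≤ G (insert u T) := by
  have h := hG.mg_mono hST hu
  unfold mg at h ⊢
  linarith

/-- No two consecutive huge marginals: avoiding a bad choice. -/
lemma avoid (hq : 2 ≤ q) (S : Finset V) (hS : 3 ≤ (univ \ S).card) :
    ∃ w, w ∉ S ∧ ∀ u, u ∉ S → u ≠ w → mg G u (insert w S) ≤ q - 1 := by
  by_contra hcon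
  push Not at hcon
  have hq' : (2 : ℝ) ≤ q := by exact_mod_cast hq
  -- choose partners
  have hne : (univ \ S).Nonempty := card_pos.1 (by omega)
  obtain ⟨w, hw⟩ := hne
  have hwS : w ∉ S := (mem_sdiff.1 hw).2
  obtain ⟨u, huS, huw, hu⟩ := hcon w hwS
  obtain ⟨t, htS, htu, ht⟩ := hcon u huS
  have h1 : G (insert w S) ≤ G (insert w S) := le_rfl
  have hGw : 0 ≤ G (insert w S) := hG.nonneg _
  have e1 : G (insert u (insert w S)) = G (insert w S) + mg G u (insert w S) := insert_eq _ _
  by_cases htw : t = w
  · -- third element
    subst htw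
    have : ∃ a ∈ univ \ S, a ≠ t ∧ a ≠ u := by
      by_contra hno
      push Not at hno
      have hsub : univ \ S ⊆ {t, u} := by
        intro a ha
        rw [mem_insert, mem_singleton]
        by_cases h : a = t
        · exact Or.inl h
        · exact Or.inr (hno a ha h)
      have := card_le_card hsub
      have h2 : ({t, u} : Finset V).card ≤ 2 := card_le_two
      omega
    obtain ⟨a, ha, hat, hau⟩ := this
    have haS : a ∉ S := (mem_sdiff.1 ha).2
    obtain ⟨b, hbS, hba, hb⟩ := hcon a haS
    -- a -> b with mg b (a S) > q-1
    by_cases hbt : b = t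
    · subst hbt
      -- chain a S, b, u
      have s1 : G (insert b (insert a S)) = G (insert a S) + mg G b (insert a S) := insert_eq _ _
      have s2 := hG.add_mg_le (u := u) (S := insert b S) (T := insert b (insert a S))
        (insert_subset_insert _ (subset_insert _ _)) (by
          simp only [mem_insert, not_or]; exact ⟨huw, hau.symm, huS⟩)
      have s3 := hG.le_tot (insert u (insert b (insert a S)))
      have s4 := hG.nonneg (insert a S)
      linarith
    · by_cases hbu : b = u
      · subst hbu
        -- chain a S, b, t
        have s1 : G (insert b (insert a S)) = G (insert a S) + mg G b (insert a S) := insert_eq _ _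
        have s2 := hG.add_mg_le (u := t) (S := insert b S) (T := insert b (insert a S))
          (insert_subset_insert _ (subset_insert _ _)) (by
            simp only [mem_insert, not_or]; exact ⟨htu, hat.symm, htS⟩)
        have s3 := hG.le_tot (insert t (insert b (insert a S)))
        have s4 := hG.nonneg (insert a S)
        linarith
      · -- disjoint pairs
        have s2 : G (insert u (insert t S)) ≤ G (insert a (insert u (insert t S))) := hG.mono _ _
        have s3 := hG.add_mg_le (u := b) (S := insert a S)
          (T := insert a (insert u (insert t S)))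
          (insert_subset_insert _ ((subset_insert _ _).trans (subset_insert _ _))) (by
            simp only [mem_insert, not_or]; exact ⟨hba, hbu, hbt, hbS⟩)
        have s4 := hG.le_tot (insert b (insert a (insert u (insert t S))))
        linarith
  · -- chain w S, u, t
    have s2 := hG.add_mg_le (u := t) (S := insert u S) (T := insert u (insert w S))
      (insert_subset_insert _ (subset_insert _ _)) (by
        simp only [mem_insert, not_or]; exact ⟨htu, htw, htS⟩)
    have s3 := hG.le_tot (insert t (insert u (insert w S)))
    linarith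

/-- The root lemma. -/
lemma root (hq : 2 ≤ q) :
    ∃ ρ : V, (∀ u, u ≠ ρ → mg G u {ρ} ≤ q - 1) ∧
      (univ.filter (fun u => u ≠ ρ ∧ 1 < mg G u {ρ})).card ≤ q - 2 := by
  classical
  have hq' : (2 : ℝ) ≤ q := by exact_mod_cast hq
  -- sum over others of a root
  have hsum : ∀ ρ : V, G {ρ} + ∑ u ∈ univ.erase ρ, mg G u {ρ} ≤ q := by
    intro ρ
    have := hG.sum_mg_le (S := {ρ}) (T := univ.erase ρ) (by simp)
    refine this.trans (hG.le_tot _)
  -- existence of a root with the counting property
  have hbeta : ∃ ρ : V, (univ.filter (fun u => u ≠ ρ ∧ 1 < mg G u {ρ})).card ≤ q - 2 := by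
    by_contra hcon
    push Not at hcon
    have hcard : Fintype.card V = q + 1 := hG.card
    -- at most one exception
    have hexc : ∀ ρ : V, ∃ e, e ≠ ρ ∧ mg G e {ρ} ≤ 1 ∧ ∀ u, u ≠ ρ → u ≠ e → 1 < mg G u {ρ} := by
      intro ρ
      have h1 := hcon ρ
      have hsplit : (univ.filter (fun u => u ≠ ρ ∧ 1 < mg G u {ρ})).card +
          (univ.filter (fun u => u ≠ ρ ∧ ¬ 1 < mg G u {ρ})).card = q := by
        have h2 : (univ.erase ρ).card = q := by
          rw [card_erase_of_mem (mem_univ _), card_univ, hcard]
          rfl
        have h3 : univ.filter (fun u => u ≠ ρ ∧ 1 < mg G u {ρ}) =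
            (univ.erase ρ).filter (fun u => 1 < mg G u {ρ}) := by
          ext u; simp
        have h4 : univ.filter (fun u => u ≠ ρ ∧ ¬ 1 < mg G u {ρ}) =
            (univ.erase ρ).filter (fun u => ¬ 1 < mg G u {ρ}) := by
          ext u; simp
        rw [h3, h4, card_filter_add_card_filter_not, h2]
      have h5 : (univ.filter (fun u => u ≠ ρ ∧ ¬ 1 < mg G u {ρ})).card ≤ 1 := by omega
      have h6 : (univ.filter (fun u => u ≠ ρ ∧ ¬ 1 < mg G u {ρ})).card ≠ 0 := by
        intro h0
        rw [card_eq_zero, filter_eq_empty_iff] at h0
        have h7 : ∀ u ∈ univ.erase ρ, 1 < mg G u {ρ} := by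
          intro u hu
          have := h0 (mem_univ u)
          push Not at this
          exact this (mem_erase.1 hu).1
        have h8 : (univ.erase ρ).card • (1 : ℝ) < ∑ u ∈ univ.erase ρ, mg G u {ρ} := by
          rw [← sum_const]
          refine sum_lt_sum_of_nonempty ?_ h7
          rw [← card_pos, card_erase_of_mem (mem_univ _), card_univ, hcard]
          omega
        rw [card_erase_of_mem (mem_univ _), card_univ, hcard] at h8
        simp only [Nat.add_sub_cancel, nsmul_eq_mul, mul_one] at h8
        have h9 := hsum ρ
        have h10 := hG.nonneg {ρ}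
        linarith
      have h11 : (univ.filter (fun u => u ≠ ρ ∧ ¬ 1 < mg G u {ρ})).card = 1 := by omega
      obtain ⟨e, he⟩ := card_eq_one.1 h11
      have hemem : e ∈ univ.filter (fun u => u ≠ ρ ∧ ¬ 1 < mg G u {ρ}) := by
        rw [he]; exact mem_singleton_self e
      rw [mem_filter] at hemem
      refine ⟨e, hemem.2.1, not_lt.1 hemem.2.2, fun u hu hue => ?_⟩
      by_contra hlt
      have : u ∈ univ.filter (fun u => u ≠ ρ ∧ ¬ 1 < mg G u {ρ}) := by
        rw [mem_filter]; exact ⟨mem_univ _, hu, hlt⟩
      rw [he, mem_singleton] at this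
      exact hue this
    -- if the exception of ρ is not an exception of p, contradiction
    have hkey : ∀ ρ e p : V, e ≠ ρ → (∀ u, u ≠ ρ → u ≠ e → 1 < mg G u {ρ}) → p ≠ e →
        1 < mg G e {p} → False := by
      intro ρ e p heρ hall hpe hp
      -- G {ρ} + sum over u ≠ ρ, e, then e
      have hd : Disjoint {ρ} ((univ.erase ρ).erase e) := by
        rw [disjoint_singleton_left]
        simp
      have h1 := hG.sum_mg_le hd
      have h2 : ({ρ} : Finset V) ∪ (univ.erase ρ).erase e = univ.erase e := by
        ext u
        simp only [mem_union, mem_singleton, mem_erase, mem_univ, and_true]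
        constructor
        · rintro (h | h)
          · rw [h]; exact heρ.symm
          · exact h.1
        · intro h
          by_cases hu : u = ρ
          · exact Or.inl hu
          · exact Or.inr ⟨h, hu⟩
      rw [h2] at h1
      have h3 := hG.add_mg_le (u := e) (S := {p}) (T := univ.erase e) (by
        simp [hpe]) (by simp)
      rw [insert_erase (mem_univ e)] at h3
      have h4 : ((univ.erase ρ).erase e).card = q - 1 := by
        rw [card_erase_of_mem (by simp [heρ]), card_erase_of_mem (mem_univ _), card_univ, hcard]
        rfl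
      have h5 : ((univ.erase ρ).erase e).card • (1 : ℝ) ≤
          ∑ u ∈ (univ.erase ρ).erase e, mg G u {ρ} := by
        rw [← sum_const]
        refine sum_le_sum fun u hu => ?_
        rw [mem_erase, mem_erase] at hu
        exact (hall u hu.2.1 hu.1).le
      rw [h4, nsmul_eq_mul, mul_one, Nat.cast_sub (by omega), Nat.cast_one] at h5
      have h6 := hG.tot
      have h7 := hG.nonneg {ρ}
      linarith
    -- pick three elements
    have hpos : 0 < Fintype.card V := by omega
    obtain ⟨ρ⟩ : Nonempty V := Fintype.card_pos_iff.1 hpos
    obtain ⟨e, heρ, he1, heall⟩ := hexc ρ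
    -- every p ≠ e has exception e
    have hp : ∀ p, p ≠ e → mg G e {p} ≤ 1 := by
      intro p hpe
      by_contra hlt
      exact hkey ρ e p heρ heall hpe (not_le.1 hlt)
    obtain ⟨y, hye, hy1, hyall⟩ := hexc e
    -- choose p ∉ {e, y}
    obtain ⟨p, hpe, hpy⟩ : ∃ p : V, p ≠ e ∧ p ≠ y := by
      by_contra hno
      push Not at hno
      have hsub : (univ : Finset V) ⊆ {e, y} := by
        intro a _
        rw [mem_insert, mem_singleton]
        by_cases h : a = e
        · exact Or.inl h
        · exact Or.inr (hno a h)
      have h1 := card_le_card hsub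
      rw [card_univ, hcard] at h1
      have h2 : ({e, y} : Finset V).card ≤ 2 := card_le_two
      omega
    obtain ⟨e', he'p, he'1, he'all⟩ := hexc p
    have : e' = e := by
      by_contra hne
      exact absurd (he'all e hpe.symm (fun h => hne h.symm)) (not_lt.2 (hp p hpe))
    subst this
    exact hkey e' y p hye hyall hpy (he'all y hpy.symm hye)
  -- combine
  by_cases hq3 : q = 2
  · obtain ⟨ρ, hρ⟩ := hbeta
    refine ⟨ρ, fun u hu => ?_, hρ⟩
    subst hq3
    have h0 : (univ.filter (fun u => u ≠ ρ ∧ 1 < mg G u {ρ})).card = 0 := by omega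
    rw [card_eq_zero, filter_eq_empty_iff] at h0
    have := h0 (mem_univ u)
    push Not at this
    have h2 := this hu
    push_cast
    linarith
  have hq3' : 3 ≤ q := by omega
  have hq3r : (3 : ℝ) ≤ q := by exact_mod_cast hq3'
  by_cases halpha : ∃ ρ u : V, u ≠ ρ ∧ (q : ℝ) - 1 < mg G u {ρ}
  · obtain ⟨ρ, u, huρ, hu⟩ := halpha
    have hcard : Fintype.card V = q + 1 := hG.card
    obtain ⟨w, hwρ, hwu⟩ : ∃ w : V, w ≠ ρ ∧ w ≠ u := by
      by_contra hno
      push Not at hno
      have hsub : (univ : Finset V) ⊆ {ρ, u} := by
        intro a _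
        rw [mem_insert, mem_singleton]
        by_cases h : a = ρ
        · exact Or.inl h
        · exact Or.inr (hno a h)
      have h1 := card_le_card hsub
      rw [card_univ, hcard] at h1
      have h2 : ({ρ, u} : Finset V).card ≤ 2 := card_le_two
      omega
    by_cases hwa : ∃ z, z ≠ w ∧ (q : ℝ) - 1 < mg G z {w}
    · obtain ⟨z, hzw, hz⟩ := hwa
      -- then z = u
      have hzu : z = u := by
        by_contra hzu
        have e1 : G (insert z {w}) = G {w} + mg G z {w} := insert_eq _ _
        by_cases hzρ : z = ρ
        · subst hzρ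
          have s2 := hG.add_mg_le (u := u) (S := {z}) (T := insert z {w}) (by simp) (by
            simp only [mem_insert, mem_singleton, not_or]; exact ⟨huρ, hwu.symm⟩)
          have s3 := hG.le_tot (insert u (insert z {w}))
          have s4 := hG.nonneg {w}
          linarith
        · have s2 : G (insert z {w}) ≤ G (insert ρ (insert z {w})) := hG.mono _ _
          have s3 := hG.add_mg_le (u := u) (S := {ρ}) (T := insert ρ (insert z {w})) (by simp) (by
            simp only [mem_insert, mem_singleton, not_or]
            exact ⟨huρ, fun h => hzu h.symm, hwu.symm⟩)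
          have s4 := hG.le_tot (insert u (insert ρ (insert z {w})))
          have s5 := hG.nonneg {w}
          linarith
      subst hzu
      -- z is a good root
      have e1 : G (insert z {w}) = G {w} + mg G z {w} := insert_eq _ _
      have e2 : G (insert z {ρ}) = G {ρ} + mg G z {ρ} := insert_eq _ _
      have e3 := hG.sup {z} w ρ (by simpa using hwu) (by simpa using huρ.symm) hwρ
      have e4 : insert w ({z} : Finset V) = insert z {w} := Finset.pair_comm w z
      have e5 : insert ρ ({z} : Finset V) = insert z {ρ} := Finset.pair_comm ρ z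
      rw [e4, e5] at e3
      have e6 := hG.le_tot (insert w (insert z {ρ}))
      have e7 := hG.nonneg {w}
      have e8 := hG.nonneg {ρ}
      have hGz : (q : ℝ) - 2 < G {z} := by linarith
      have hsz := hsum z
      refine ⟨z, fun y hy => ?_, ?_⟩
      · have : mg G y {z} ≤ ∑ u ∈ univ.erase z, mg G u {z} :=
          single_le_sum (f := fun u => mg G u {z}) (fun u _ => hG.mg_nonneg u _) (by
            simp [hy])
        linarith
      · -- count
        have hle : ((univ.filter (fun y => y ≠ z ∧ 1 < mg G y {z})).card : ℝ) ≤
            ∑ u ∈ univ.erase z, mg G u {z} := by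
          have h1 : (univ.filter (fun y => y ≠ z ∧ 1 < mg G y {z})) ⊆ univ.erase z := by
            intro y hy
            rw [mem_filter] at hy
            rw [mem_erase]
            exact ⟨hy.2.1, mem_univ _⟩
          calc ((univ.filter (fun y => y ≠ z ∧ 1 < mg G y {z})).card : ℝ)
              = ∑ y ∈ univ.filter (fun y => y ≠ z ∧ 1 < mg G y {z}), (1 : ℝ) := by simp
            _ ≤ ∑ y ∈ univ.filter (fun y => y ≠ z ∧ 1 < mg G y {z}), mg G y {z} :=
                sum_le_sum fun y hy => ((mem_filter.1 hy).2.2).le
            _ ≤ _ := sum_le_sum_of_subset_of_nonneg h1 (fun u _ _ => hG.mg_nonneg u _)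
        have hlt : ((univ.filter (fun y => y ≠ z ∧ 1 < mg G y {z})).card : ℝ) < 2 := by linarith
        have : (univ.filter (fun y => y ≠ z ∧ 1 < mg G y {z})).card < 2 := by exact_mod_cast hlt
        omega
    · push Not at hwa
      refine ⟨w, hwa, ?_⟩
      by_contra hcount
      push Not at hcount
      have hsplit : (univ.filter (fun u => u ≠ w ∧ 1 < mg G u {w})).card +
          (univ.filter (fun u => u ≠ w ∧ ¬ 1 < mg G u {w})).card = q := by
        have h2 : (univ.erase w).card = q := by
          rw [card_erase_of_mem (mem_univ _), card_univ, hcard]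
          rfl
        have h3 : univ.filter (fun u => u ≠ w ∧ 1 < mg G u {w}) =
            (univ.erase w).filter (fun u => 1 < mg G u {w}) := by
          ext u; simp
        have h4 : univ.filter (fun u => u ≠ w ∧ ¬ 1 < mg G u {w}) =
            (univ.erase w).filter (fun u => ¬ 1 < mg G u {w}) := by
          ext u; simp
        rw [h3, h4, card_filter_add_card_filter_not, h2]
      have h5 : (univ.filter (fun u => u ≠ w ∧ ¬ 1 < mg G u {w})).card ≤ 1 := by omega
      have hρle : mg G ρ {w} ≤ 1 := by
        by_contra hlt
        push Not at hlt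
        have e1 : G (insert ρ {w}) = G {w} + mg G ρ {w} := insert_eq _ _
        have s2 := hG.add_mg_le (u := u) (S := {ρ}) (T := insert ρ {w}) (by simp) (by
          simp only [mem_insert, mem_singleton, not_or]; exact ⟨huρ, hwu.symm⟩)
        have s3 := hG.le_tot (insert u (insert ρ {w}))
        have s4 := hG.nonneg {w}
        linarith
      -- a fourth element
      obtain ⟨z, hzρ, hzu, hzw⟩ : ∃ z : V, z ≠ ρ ∧ z ≠ u ∧ z ≠ w := by
        by_contra hno
        push Not at hno
        have hsub : (univ : Finset V) ⊆ {ρ, u, w} := by
          intro a _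
          rw [mem_insert, mem_insert, mem_singleton]
          by_cases h : a = ρ
          · exact Or.inl h
          · by_cases h' : a = u
            · exact Or.inr (Or.inl h')
            · exact Or.inr (Or.inr (hno a h h'))
        have h1 := card_le_card hsub
        rw [card_univ, hcard] at h1
        have h2 : ({ρ, u, w} : Finset V).card ≤ 3 := card_le_three
        omega
      have hz1 : 1 < mg G z {w} := by
        by_contra hz
        have hsub : ({ρ, z} : Finset V) ⊆ univ.filter (fun u => u ≠ w ∧ ¬ 1 < mg G u {w}) := by
          intro a ha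
          rw [mem_insert, mem_singleton] at ha
          rw [mem_filter]
          rcases ha with rfl | rfl
          · exact ⟨mem_univ _, hwρ.symm, not_lt.2 hρle⟩
          · exact ⟨mem_univ _, hzw, hz⟩
        have h1 := card_le_card hsub
        rw [card_pair hzρ.symm] at h1
        omega
      have e1 : G (insert z {w}) = G {w} + mg G z {w} := insert_eq _ _
      have s1 : G (insert z {w}) ≤ G (insert ρ (insert z {w})) := hG.mono _ _
      have s2 := hG.add_mg_le (u := u) (S := {ρ}) (T := insert ρ (insert z {w})) (by simp) (by
        simp only [mem_insert, mem_singleton, not_or]; exact ⟨huρ, hzu.symm, hwu.symm⟩)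
      have s3 := hG.le_tot (insert u (insert ρ (insert z {w})))
      have s4 := hG.nonneg {w}
      linarith
  · push Not at halpha
    obtain ⟨ρ, hρ⟩ := hbeta
    exact ⟨ρ, fun u hu => halpha ρ u hu, hρ⟩

end SupFun

/-- An ordering of `q + 1` elements, given by its elements and its initial segments. -/
structure Ord (q : ℕ) (x : ℕ → V) (P : ℕ → Finset V) : Prop where
  zero : P 0 = ∅
  succ : ∀ n, n ≤ q → P (n + 1) = insert (x n) (P n)
  notMem : ∀ n, n ≤ q → x n ∉ P n

omit [Fintype V] in
lemma Ord.sub {q : ℕ} {x : ℕ → V} {P : ℕ → Finset V} (h : Ord q x P) {a b : ℕ} (hab : a ≤ b)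
    (hb : b ≤ q + 1) : P a ⊆ P b := by
  induction b, hab using Nat.le_induction with
  | base => exact Subset.rfl
  | succ n hn ih =>
    rw [h.succ n (by omega)]
    exact (ih (by omega)).trans (subset_insert _ _)

omit [Fintype V] in
lemma Ord.notMem' {q : ℕ} {x : ℕ → V} {P : ℕ → Finset V} (h : Ord q x P) {a b : ℕ} (hab : a ≤ b)
    (hb : b ≤ q) : x b ∉ P a := fun hx => h.notMem b hb (h.sub hab (by omega) hx)

omit [Fintype V] in
lemma Ord.mem {q : ℕ} {x : ℕ → V} {P : ℕ → Finset V} (h : Ord q x P) {a b : ℕ} (hab : a < b)
    (hb : b ≤ q + 1) : x a ∈ P b := by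
  have : x a ∈ P (a + 1) := by rw [h.succ a (by omega)]; exact mem_insert_self _ _
  exact h.sub hab hb this

/-- Every selection rule yields an ordering. -/
lemma exists_ord {q : ℕ} (hcard : Fintype.card V = q + 1) (pick : Finset V → V)
    (hpick : ∀ S, S ≠ univ → pick S ∉ S) :
    ∃ (x : ℕ → V) (P : ℕ → Finset V), Ord q x P ∧ (∀ n, n ≤ q → P n ≠ univ) ∧
      (∀ n, n ≤ q → x n = pick (P n)) := by
  let P : ℕ → Finset V := fun n => Nat.rec ∅ (fun _ S => insert (pick S) S) n
  have hP : ∀ n, P (n + 1) = insert (pick (P n)) (P n) := fun n => rfl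
  have hcardP : ∀ n, (P n).card ≤ n := by
    intro n
    induction n with
    | zero => simp [P]
    | succ n ih =>
      rw [hP]
      exact (card_insert_le _ _).trans (by omega)
  have hne : ∀ n, n ≤ q → P n ≠ univ := by
    intro n hn h
    have := hcardP n
    rw [h, card_univ, hcard] at this
    omega
  exact ⟨fun n => pick (P n), P, ⟨rfl, fun n _ => hP n, fun n hn => hpick _ (hne n hn)⟩, hne,
    fun n _ => rfl⟩

namespace SupFun

variable {G : Finset V → ℝ} {q : ℕ} (hG : SupFun G q)
include hG

lemma sum_chain {x : ℕ → V} {P : ℕ → Finset V} (h : Ord q x P) (b : ℝ) (j n : ℕ)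
    (hjn : j + n ≤ q + 1) (hb : ∀ t, j ≤ t → t < j + n → b ≤ mg G (x t) (P t)) :
    G (P j) + n * b ≤ G (P (j + n)) := by
  induction n with
  | zero => simp
  | succ n ih =>
    have h1 := ih (by omega) (fun t ht1 ht2 => hb t ht1 (by omega))
    have h2 : P (j + (n + 1)) = insert (x (j + n)) (P (j + n)) := h.succ (j + n) (by omega)
    have h3 := hb (j + n) (by omega) (by omega)
    have h4 := insert_eq (G := G) (x (j + n)) (P (j + n))
    rw [h2, h4]
    push_cast
    linarith

/-- The marginal of a later element over an initial segment increases. -/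
lemma mg_later {x : ℕ → V} {P : ℕ → Finset V} (h : Ord q x P) {a b i : ℕ} (hab : a ≤ b)
    (hbi : b ≤ i) (hi : i ≤ q) : mg G (x i) (P a) ≤ mg G (x i) (P b) :=
  hG.mg_mono (h.sub hab (by omega)) (h.notMem' hbi hi)

/-- The ordering theorem. -/
theorem exists_order (hq : 1 ≤ q) {η : ℝ} (hη0 : 0 ≤ η) (hη1 : (q + 1) * η ≤ 1) :
    ∃ (x : ℕ → V) (P : ℕ → Finset V), Ord q x P ∧
      (∀ j i, 1 ≤ j → j ≤ i → i + 1 ≤ q → mg G (x i) (P j) ≤ q - (i + 1 - j) + η) ∧
      (∀ j, 1 ≤ j → j ≤ q → mg G (x q) (P j) ≤ j) ∧
      (∀ i, i < q → mg G (x i) (P 0) ≤ q - i) ∧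
      mg G (x q) (P 0) ≤ 1 - η := by
  classical
  have hcard : Fintype.card V = q + 1 := hG.card
  have hq1 : (1 : ℝ) ≤ q := by exact_mod_cast hq
  -- choice of the largest marginal
  have harg : ∀ S : Finset V, S ≠ univ → ∃ u, u ∉ S ∧ ∀ w, w ∉ S → mg G w S ≤ mg G u S := by
    intro S hS
    have hne : (univ \ S).Nonempty := by
      rw [sdiff_nonempty]
      intro h
      exact hS (univ_subset_iff.1 h)
    obtain ⟨u, hu, hmax⟩ := exists_max_image (univ \ S) (fun u => mg G u S) hne
    exact ⟨u, (mem_sdiff.1 hu).2, fun w hw => hmax w (mem_sdiff.2 ⟨mem_univ _, hw⟩)⟩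
  by_cases hcase : q = 1 ∨ ∃ l : V, 1 - η < mg G l ∅
  · -- pure greedy
    have : ∃ pick : Finset V → V, (∀ S, S ≠ univ → pick S ∉ S) ∧
        ∀ S, S ≠ univ → ∀ w, w ∉ S → mg G w S ≤ mg G (pick S) S := by
      have hV : Nonempty V := Fintype.card_pos_iff.1 (by omega)
      refine ⟨fun S => if hS : S = univ then Classical.arbitrary V else (harg S hS).choose,
        fun S hS => ?_, fun S hS w hw => ?_⟩
      · simp only [hS, dite_false]
        exact (harg S hS).choose_spec.1
      · simp only [hS, dite_false]
        exact (harg S hS).choose_spec.2 w hw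
    obtain ⟨pick, hpick, hmax⟩ := this
    obtain ⟨x, P, hord, hne, hx⟩ := exists_ord hcard pick hpick
    refine ⟨x, P, hord, ?_⟩
    have hgreedy : ∀ t i, t ≤ i → i ≤ q → mg G (x i) (P t) ≤ mg G (x t) (P t) := by
      intro t i hti hi
      rw [hx t (by omega)]
      exact hmax _ (hne t (by omega)) _ (hord.notMem' hti hi)
    -- the basic inequality
    have hbasic : ∀ j i, j ≤ i → i ≤ q →
        G (P j) + (i + 1 - j) * mg G (x i) (P j) ≤ q := by
      intro j i hji hi
      have h1 := hG.sum_chain hord (mg G (x i) (P j)) j (i + 1 - j) (by omega) (by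
        intro t ht1 ht2
        exact (hG.mg_later hord ht1 (by omega) hi).trans (hgreedy t i (by omega) hi))
      have h2 := hG.le_tot (P (j + (i + 1 - j)))
      rw [Nat.cast_sub (by omega)] at h1
      push_cast at h1
      linarith
    refine ⟨?_, ?_, ?_, ?_⟩
    · intro j i hj hji hi
      by_contra hv
      push Not at hv
      have h1 := hbasic j i hji (by omega)
      -- q ≥ 2 here
      have hq2 : q ≠ 1 := by omega
      obtain ⟨l, hl⟩ := hcase.resolve_left hq2
      have hroot : 1 - η < G (P j) := by
        have h2 : mg G l ∅ ≤ mg G (x 0) (P 0) := by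
          rw [hx 0 (by omega), hord.zero]
          exact hmax _ (by rw [← hord.zero]; exact hne 0 (by omega)) _ (notMem_empty _)
        have h3 : G (P 1) = G (P 0) + mg G (x 0) (P 0) := by
          rw [hord.succ 0 (by omega)]; exact insert_eq _ _
        have h4 : G (P 0) = 0 := by rw [hord.zero]; exact hG.empty
        have h5 : G (P 1) ≤ G (P j) := hG.le_of_subset (hord.sub hj (by omega))
        linarith
      have hji' : (j : ℝ) ≤ i := by exact_mod_cast hji
      have hj' : (1 : ℝ) ≤ j := by exact_mod_cast hj
      have hi' : (i : ℝ) + 1 ≤ q := by exact_mod_cast hi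
      set a : ℝ := i + 1 - j with ha
      have ha1 : 1 ≤ a := by linarith
      have ha2 : a ≤ q - 1 := by linarith
      have h3 : a * (q - a + η) < a * mg G (x i) (P j) := by
        apply mul_lt_mul_of_pos_left _ (by linarith)
        linarith
      nlinarith [mul_nonneg (sub_nonneg.2 ha1) (sub_nonneg.2 ha2), mul_nonneg (sub_nonneg.2 ha1) hη0]
    · intro j hj hjq
      by_contra hv
      push Not at hv
      have h1 := hbasic j q hjq le_rfl
      have h2 := hG.nonneg (P j)
      have hj' : (1 : ℝ) ≤ j := by exact_mod_cast hj
      have hjq' : (j : ℝ) ≤ q := by exact_mod_cast hjq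
      have h3 : ((q : ℝ) + 1 - j) * j < (q + 1 - j) * mg G (x q) (P j) :=
        mul_lt_mul_of_pos_left hv (by linarith)
      nlinarith [mul_nonneg (sub_nonneg.2 hj') (sub_nonneg.2 hjq')]
    · intro i hi
      by_contra hv
      push Not at hv
      have h1 := hbasic 0 i (by omega) (by omega)
      have h2 := hG.nonneg (P 0)
      have hi' : (i : ℝ) + 1 ≤ q := by exact_mod_cast hi
      have hi0 : (0 : ℝ) ≤ i := Nat.cast_nonneg i
      push_cast at h1
      have h3 : ((i : ℝ) + 1 - 0) * (q - i) < (i + 1 - 0) * mg G (x i) (P 0) :=
        mul_lt_mul_of_pos_left hv (by linarith)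
      nlinarith [mul_nonneg hi0 (by linarith : (0 : ℝ) ≤ q - i - 1)]
    · by_contra hv
      push Not at hv
      have h1 := hbasic 0 q (by omega) le_rfl
      have h2 := hG.nonneg (P 0)
      push_cast at h1
      have h3 : ((q : ℝ) + 1 - 0) * (1 - η) < (q + 1 - 0) * mg G (x q) (P 0) :=
        mul_lt_mul_of_pos_left hv (by linarith)
      nlinarith
  · -- all singletons are light
    push Not at hcase
    obtain ⟨hqne, hlight⟩ := hcase
    have hq2 : 2 ≤ q := by omega
    have hq2r : (2 : ℝ) ≤ q := by exact_mod_cast hq2
    obtain ⟨ρ, hρ1, hρ2⟩ := hG.root hq2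
    -- the selection rule
    have hrule : ∀ S : Finset V, S ≠ univ → ∃ u, u ∉ S ∧ (S = ∅ → u = ρ) ∧
        (S ≠ ∅ → (∃ w, w ∉ S ∧ 2 ≤ mg G w S) → ∀ w, w ∉ S → mg G w S ≤ mg G u S) ∧
        (S ≠ ∅ → ρ ∈ S → (∃ w, w ∉ S ∧ 1 < mg G w S) → 1 < mg G u S) ∧
        (S ≠ ∅ → (∃ w, w ∉ S ∧ 1 + η < mg G w {ρ}) → 2 ≤ mg G u S ∨ 1 + η < mg G u {ρ}) ∧
        (S ≠ ∅ → (∀ w, w ∉ S → mg G w S ≤ 1) → (∀ w, w ∉ S → mg G w {ρ} ≤ 1 + η) →
          3 ≤ (univ \ S).card → ∀ w, w ∉ S → w ≠ u → mg G w (insert u S) ≤ q - 1) := by
      intro S hS
      by_cases hS0 : S = ∅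
      · exact ⟨ρ, by rw [hS0]; exact notMem_empty _, fun _ => rfl, fun h => absurd hS0 h,
          fun h => absurd hS0 h, fun h => absurd hS0 h, fun h => absurd hS0 h⟩
      obtain ⟨u, huS, humax⟩ := harg S hS
      by_cases h2 : ∃ w, w ∉ S ∧ 2 ≤ mg G w S
      · obtain ⟨w, hwS, hw⟩ := h2
        have hu2 : 2 ≤ mg G u S := hw.trans (humax w hwS)
        refine ⟨u, huS, fun h => absurd h hS0, fun _ _ => humax, fun _ _ _ => by linarith,
          fun _ _ => Or.inl hu2, fun _ hall _ _ => ?_⟩
        have := hall u huS
        linarith
      · by_cases hU : ∃ w, w ∉ S ∧ 1 + η < mg G w {ρ}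
        · obtain ⟨w, hwS, hw⟩ := hU
          refine ⟨w, hwS, fun h => absurd h hS0, fun _ h => absurd h h2, fun _ hρS _ => ?_,
            fun _ _ => Or.inr hw, fun _ _ hall _ => ?_⟩
          · have := hG.mg_mono (S := {ρ}) (T := S) (u := w) (singleton_subset_iff.2 hρS) hwS
            linarith
          · have := hall w hwS
            linarith
        · by_cases h1 : ∃ w, w ∉ S ∧ 1 < mg G w S
          · obtain ⟨w, hwS, hw⟩ := h1
            have hu1 : 1 < mg G u S := lt_of_lt_of_le hw (humax w hwS)
            refine ⟨u, huS, fun h => absurd h hS0, fun _ _ => humax, fun _ _ _ => hu1,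
              fun _ h => absurd h hU, fun _ hall _ _ => ?_⟩
            have := hall u huS
            linarith
          · by_cases h3 : 3 ≤ (univ \ S).card
            · obtain ⟨w, hwS, hw⟩ := hG.avoid hq2 S h3
              exact ⟨w, hwS, fun h => absurd h hS0, fun _ h => absurd h h2,
                fun _ _ h => absurd h h1, fun _ h => absurd h hU,
                fun _ _ _ _ y hy hyw => hw y hy hyw⟩
            · exact ⟨u, huS, fun h => absurd h hS0, fun _ h => absurd h h2,
                fun _ _ h => absurd h h1, fun _ h => absurd h hU, fun _ _ _ h => absurd h h3⟩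
    haveI hV : Nonempty V := ⟨ρ⟩
    choose! pick hp0 hp1 hp2 hp3 hp4 hp5 using hrule
    obtain ⟨x, P, hord, hne, hx⟩ := exists_ord hcard pick hp0
    have hx0 : x 0 = ρ := by
      rw [hx 0 (by omega), hord.zero]
      exact hp1 ∅ (by rw [← hord.zero]; exact hne 0 (by omega)) rfl
    have hP1 : P 1 = {ρ} := by
      rw [hord.succ 0 (by omega), hord.zero, hx0]
      rfl
    have hρP : ∀ t, 1 ≤ t → t ≤ q + 1 → ρ ∈ P t := by
      intro t ht1 ht2
      exact hord.sub ht1 ht2 (by rw [hP1]; exact mem_singleton_self _)
    have hPne : ∀ t, 1 ≤ t → t ≤ q + 1 → P t ≠ ∅ := fun t h1 h2 =>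
      ne_empty_of_mem (hρP t h1 h2)
    have hcardP : ∀ t, t ≤ q + 1 → (P t).card = t := by
      intro t
      induction t with
      | zero => intro _; rw [hord.zero]; rfl
      | succ t ih =>
        intro ht
        rw [hord.succ t (by omega), card_insert_of_notMem (hord.notMem t (by omega)),
          ih (by omega)]
    -- properties along the order
    have q1 : ∀ t i, 1 ≤ t → t ≤ i → i ≤ q → 2 ≤ mg G (x i) (P t) →
        mg G (x i) (P t) ≤ mg G (x t) (P t) := by
      intro t i ht hti hi h2
      have := hp2 (P t) (hne t (by omega)) (hPne t ht (by omega))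
        ⟨x i, hord.notMem' hti hi, h2⟩ (x i) (hord.notMem' hti hi)
      rwa [← hx t (by omega)] at this
    have q2 : ∀ t i, 1 ≤ t → t ≤ i → i ≤ q → 1 < mg G (x i) (P t) → 1 < mg G (x t) (P t) := by
      intro t i ht hti hi h2
      have := hp3 (P t) (hne t (by omega)) (hPne t ht (by omega)) (hρP t ht (by omega))
        ⟨x i, hord.notMem' hti hi, h2⟩
      rwa [← hx t (by omega)] at this
    have q3 : ∀ t i, 1 ≤ t → t ≤ i → i ≤ q → 1 + η < mg G (x i) {ρ} →
        2 ≤ mg G (x t) (P t) ∨ 1 + η < mg G (x t) {ρ} := by
      intro t i ht hti hi h2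
      have := hp4 (P t) (hne t (by omega)) (hPne t ht (by omega))
        ⟨x i, hord.notMem' hti hi, h2⟩
      rwa [← hx t (by omega)] at this
    refine ⟨x, P, hord, ?_, ?_, ?_, ?_⟩
    · -- (A)
      intro j i hj hji hi
      by_contra hv
      push Not at hv
      have hji' : (j : ℝ) ≤ i := by exact_mod_cast hji
      have hj' : (1 : ℝ) ≤ j := by exact_mod_cast hj
      have hi' : (i : ℝ) + 1 ≤ q := by exact_mod_cast hi
      by_cases ha1 : i = j
      · -- a = 1
        subst ha1
        have hv' : (q : ℝ) - 1 < mg G (x i) (P i) := by linarith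
        by_cases hi1 : i = 1
        · subst hi1
          rw [hP1] at hv'
          have hne' : x 1 ≠ ρ := by
            intro h
            have := hord.notMem 1 (by omega)
            rw [hP1, h] at this
            exact this (mem_singleton_self _)
          have := hρ1 (x 1) hne'
          linarith
        · obtain ⟨t, rfl⟩ : ∃ t, i = t + 1 := ⟨i - 1, by omega⟩
          have ht1 : 1 ≤ t := by omega
          -- G (P (t+1)) < 1
          have h1 : G (P (t + 1)) + mg G (x (t + 1)) (P (t + 1)) ≤ q := by
            have e : G (P (t + 1 + 1)) = G (P (t + 1)) + mg G (x (t + 1)) (P (t + 1)) := by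
              rw [hord.succ (t + 1) (by omega)]; exact insert_eq _ _
            rw [← e]
            exact hG.le_tot _
          have h2 : G (P (t + 1)) = G (P t) + mg G (x t) (P t) := by
            rw [hord.succ t (by omega)]; exact insert_eq _ _
          have h3 := hG.nonneg (P t)
          have h4 : mg G (x t) (P t) < 1 := by linarith
          have h5 : ∀ w, w ∉ P t → mg G w (P t) ≤ 1 := by
            intro w hw
            by_contra hlt
            push Not at hlt
            have := hp3 (P t) (hne t (by omega)) (hPne t ht1 (by omega)) (hρP t ht1 (by omega))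
              ⟨w, hw, hlt⟩
            rw [← hx t (by omega)] at this
            linarith
          have h6 : ∀ w, w ∉ P t → mg G w {ρ} ≤ 1 + η := by
            intro w hw
            have := hG.mg_mono (S := {ρ}) (T := P t) (u := w)
              (singleton_subset_iff.2 (hρP t ht1 (by omega))) hw
            have := h5 w hw
            linarith
          have h7 : 3 ≤ (univ \ P t).card := by
            rw [card_sdiff_of_subset (subset_univ _), card_univ, hcard, hcardP t (by omega)]
            omega
          have h8 := hp5 (P t) (hne t (by omega)) (hPne t ht1 (by omega)) h5 h6 h7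
            (x (t + 1)) (hord.notMem' (by omega) (by omega)) (by
              rw [← hx t (by omega)]
              intro h
              have := hord.notMem (t + 1) (by omega)
              rw [hord.succ t (by omega), h] at this
              exact this (mem_insert_self _ _))
          rw [← hx t (by omega), ← hord.succ t (by omega)] at h8
          linarith
      · have hlt : j < i := by omega
        have hlt' : (j : ℝ) + 1 ≤ i := by exact_mod_cast hlt
        by_cases hq' : i + 1 - j = q - 1
        · -- j = 1, i = q - 1
          have hj1 : j = 1 := by omega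
          have hiq : i + 1 = q := by omega
          subst hj1
          rw [hP1] at hv
          have hiq' : (i : ℝ) + 1 = q := by exact_mod_cast hiq
          have hv1 : 1 + η < mg G (x i) {ρ} := by
            push_cast at hv
            linarith
          have hq3 : 3 ≤ q := by omega
          -- each step is either ≥ 2 or in U1
          have hstep : ∀ t, 1 ≤ t → t ≤ i → 1 < mg G (x t) (P t) := by
            intro t ht1 hti
            rcases q3 t i ht1 hti (by omega) hv1 with h | h
            · linarith
            · have := hG.mg_mono (S := {ρ}) (T := P t) (u := x t)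
                (singleton_subset_iff.2 (hρP t ht1 (by omega))) (hord.notMem t (by omega))
              linarith
          by_cases hall : ∀ t, 1 ≤ t → t ≤ i → 1 + η < mg G (x t) {ρ}
          · -- too many heavy elements
            have hinj : Set.InjOn x (Finset.Icc 1 i : Finset ℕ) := by
              intro a ha b hb hab
              simp only [coe_Icc, Set.mem_Icc] at ha hb
              rcases lt_trichotomy a b with h | h | h
              · exact absurd (hab ▸ hord.mem h (by omega)) (hord.notMem b (by omega))
              · exact h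
              · exact absurd (hab ▸ hord.mem h (by omega)) (hord.notMem a (by omega))
            have hcardI : ((Finset.Icc 1 i).image x).card = i := by
              rw [card_image_of_injOn hinj]
              simp
            have hsub : (Finset.Icc 1 i).image x ⊆
                univ.filter (fun u => u ≠ ρ ∧ 1 < mg G u {ρ}) := by
              intro u hu
              rw [mem_image] at hu
              obtain ⟨t, ht, rfl⟩ := hu
              rw [mem_Icc] at ht
              rw [mem_filter]
              refine ⟨mem_univ _, ?_, ?_⟩
              · intro h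
                have h1 := hord.notMem t (by omega)
                rw [h] at h1
                exact h1 (hρP t ht.1 (by omega))
              · have := hall t ht.1 ht.2
                linarith
            have := card_le_card hsub
            rw [hcardI] at this
            omega
          · push Not at hall
            obtain ⟨t0, ht01, ht0i, ht0⟩ := hall
            have h2 : 2 ≤ mg G (x t0) (P t0) := by
              rcases q3 t0 i ht01 ht0i (by omega) hv1 with h | h
              · exact h
              · linarith
            -- sums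
            have s1 := hG.sum_chain hord 1 1 (t0 - 1) (by omega) (by
              intro t ht1 ht2
              exact (hstep t ht1 (by omega)).le)
            have s2 : G (P (t0 + 1)) = G (P t0) + mg G (x t0) (P t0) := by
              rw [hord.succ t0 (by omega)]; exact insert_eq _ _
            have s3 := hG.sum_chain hord 1 (t0 + 1) (i - t0) (by omega) (by
              intro t ht1 ht2
              exact (hstep t (by omega) (by omega)).le)
            have e1 : 1 + (t0 - 1) = t0 := by omega
            have e2 : t0 + 1 + (i - t0) = i + 1 := by omega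
            rw [e1] at s1
            rw [e2] at s3
            rw [Nat.cast_sub (by omega)] at s1 s3
            push_cast at s1 s3
            have s4 := hG.nonneg (P 1)
            -- total at least q; need strictness
            have s5 := hG.le_tot (P (i + 1))
            -- strictness: one of the other steps is > 1
            -- here i ≥ 2, so there is another step
            have hstrict : ∃ t, 1 ≤ t ∧ t ≤ i ∧ t ≠ t0 := by
              by_cases h : t0 = 1
              · exact ⟨2, by omega, by omega, by omega⟩
              · exact ⟨1, by omega, by omega, by omega⟩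
            obtain ⟨t1, ht11, ht1i, ht1ne⟩ := hstrict
            have h11 := hstep t1 ht11 ht1i
            -- direct sum over all steps
            have hsum : ∀ n, n ≤ i → G (P (n + 1)) =
                G (P 1) + ∑ t ∈ Finset.Icc 1 n, mg G (x t) (P t) := by
              intro n
              induction n with
              | zero => intro _; simp
              | succ n ih =>
                intro hn
                rw [Finset.sum_Icc_succ_top (by omega), ← add_assoc, ← ih (by omega),
                  hord.succ (n + 1) (by omega)]
                exact insert_eq _ _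
            have hS := hsum i le_rfl
            have hge : (∑ t ∈ Finset.Icc 1 i, (if t = t0 then (2 : ℝ) else 1)) <
                ∑ t ∈ Finset.Icc 1 i, mg G (x t) (P t) := by
              apply sum_lt_sum
              · intro t ht
                rw [mem_Icc] at ht
                by_cases h : t = t0
                · rw [if_pos h, h]; exact h2
                · rw [if_neg h]; exact (hstep t ht.1 ht.2).le
              · exact ⟨t1, mem_Icc.2 ⟨ht11, ht1i⟩, by rw [if_neg ht1ne]; exact h11⟩
            have hval : (∑ t ∈ Finset.Icc 1 i, (if t = t0 then (2 : ℝ) else 1)) = i + 1 := by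
              have : ∀ t ∈ Finset.Icc 1 i, (if t = t0 then (2 : ℝ) else 1) =
                  1 + (if t = t0 then (1 : ℝ) else 0) := by
                intro t _
                split_ifs <;> norm_num
              rw [sum_congr rfl this, sum_add_distrib, sum_ite_eq', if_pos (mem_Icc.2 ⟨ht01, ht0i⟩)]
              simp
            linarith
        · -- 2 ≤ a ≤ q - 2
          have ha2 : (i : ℝ) + 1 - j ≤ q - 2 := by
            have : i + 1 - j ≤ q - 2 := by omega
            have h1 : i + 1 + 2 ≤ q + j := by omega
            have h2 : (i : ℝ) + 1 + 2 ≤ q + j := by exact_mod_cast h1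
            linarith
          set a : ℝ := i + 1 - j with ha
          have ha2' : 2 ≤ a := by linarith
          have hv2 : q - a < mg G (x i) (P j) := by linarith
          have h1 := hG.sum_chain hord (mg G (x i) (P j)) j (i + 1 - j) (by omega) (by
            intro t ht1 ht2
            have hm := hG.mg_later hord ht1 (by omega : t ≤ i) (by omega)
            exact hm.trans (q1 t i (by omega) (by omega) (by omega) (by linarith)))
          have h2 := hG.le_tot (P (j + (i + 1 - j)))
          have h3 := hG.nonneg (P j)
          rw [Nat.cast_sub (by omega)] at h1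
          push_cast at h1
          rw [← ha] at h1
          have h4 : a * (q - a) < a * mg G (x i) (P j) :=
            mul_lt_mul_of_pos_left hv2 (by linarith)
          nlinarith [mul_nonneg (by linarith : (0 : ℝ) ≤ a - 2) (by linarith : (0 : ℝ) ≤ q - a - 2)]
    · -- (B)
      intro j hj hjq
      by_contra hv
      push Not at hv
      have hj' : (1 : ℝ) ≤ j := by exact_mod_cast hj
      have hjq' : (j : ℝ) ≤ q := by exact_mod_cast hjq
      by_cases hj1 : j = 1
      · subst hj1
        push_cast at hv
        -- all steps > 1
        have hstep : ∀ t, 1 ≤ t → t ≤ q → 1 < mg G (x t) (P t) := by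
          intro t ht1 htq
          refine q2 t q ht1 htq le_rfl (lt_of_lt_of_le hv (hG.mg_later hord ht1 htq le_rfl))
        have hlast := hstep q (by omega) le_rfl
        have s1 := hG.sum_chain hord 1 1 (q - 1) (by omega) (by
          intro t ht1 ht2
          exact (hstep t ht1 (by omega)).le)
        have e1 : 1 + (q - 1) = q := by omega
        rw [e1, Nat.cast_sub (by omega)] at s1
        push_cast at s1
        have s2 : G (P (q + 1)) = G (P q) + mg G (x q) (P q) := by
          rw [hord.succ q le_rfl]; exact insert_eq _ _
        have s3 := hG.le_tot (P (q + 1))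
        have s4 := hG.nonneg (P 1)
        linarith
      · have hj2 : 2 ≤ j := by omega
        have hj2' : (2 : ℝ) ≤ j := by exact_mod_cast hj2
        have h1 := hG.sum_chain hord (mg G (x q) (P j)) j (q + 1 - j) (by omega) (by
          intro t ht1 ht2
          have hm := hG.mg_later hord ht1 (by omega : t ≤ q) le_rfl
          exact hm.trans (q1 t q (by omega) (by omega) le_rfl (by linarith)))
        have h2 := hG.le_tot (P (j + (q + 1 - j)))
        have h3 := hG.nonneg (P j)
        rw [Nat.cast_sub (by omega)] at h1
        push_cast at h1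
        have h4 : ((q : ℝ) + 1 - j) * j < (q + 1 - j) * mg G (x q) (P j) :=
          mul_lt_mul_of_pos_left hv (by linarith)
        nlinarith [mul_nonneg (sub_nonneg.2 hj') (sub_nonneg.2 hjq')]
    · -- (C)
      intro i hi
      rw [hord.zero]
      have h1 := hlight (x i)
      have hi' : (i : ℝ) + 1 ≤ q := by exact_mod_cast hi
      linarith
    · rw [hord.zero]
      exact hlight (x q)

end SupFun
end Pool.Agent.Helper42.Unav
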